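import Mathlib

/-!
Hermitian forms on modules over a ring with involution, their isometries, and the Eichler
transformations, which are commutators if there are enough hyperbolic planes.
-/

set_option autoImplicit false
set_option linter.unusedSectionVars false
set_option linter.unusedSimpArgs false

namespace Pool.Agent.X263.Od

/-- hermitian forms -/
structure Frm (R X : Type*) [Ring R] [StarRing R] [AddCommGroup X] [Module R X] where
  B : X → X → R
  add_left : ∀ x y z, B (x + y) z = B x z + B y z
  smul_left : ∀ (a : R) x y, B (a • x) y = a * B x y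
  symm : ∀ x y, star (B x y) = B y x

variable {R : Type*} [Ring R] [StarRing R] {X : Type*} [AddCommGroup X] [Module R X]

namespace Frm

variable (F : Frm R X)

theorem add_right (x y z : X) : F.B x (y + z) = F.B x y + F.B x z := by
  rw [← F.symm, F.add_left, star_add, F.symm, F.symm]

theorem smul_right (a : R) (x y : X) : F.B x (a • y) = F.B x y * star a := by
  rw [← F.symm, F.smul_left, star_mul, F.symm]

theorem zero_left (y : X) : F.B 0 y = 0 := by
  have h := F.smul_left 0 0 y
  rwa [zero_smul, zero_mul] at h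

theorem zero_right (y : X) : F.B y 0 = 0 := by
  rw [← F.symm, F.zero_left, star_zero]

theorem neg_left (x y : X) : F.B (-x) y = - F.B x y := by
  have h := F.smul_left (-1) x y
  rwa [neg_smul, one_smul, neg_mul, one_mul] at h

theorem neg_right (x y : X) : F.B x (-y) = - F.B x y := by
  rw [← F.symm, F.neg_left, star_neg, F.symm]

theorem sub_left (x y z : X) : F.B (x - y) z = F.B x z - F.B y z := by
  rw [sub_eq_add_neg, F.add_left, F.neg_left, sub_eq_add_neg]

theorem sub_right (x y z : X) : F.B x (y - z) = F.B x y - F.B x z := by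
  rw [sub_eq_add_neg, F.add_right, F.neg_right, sub_eq_add_neg]

theorem swap0 {x y : X} (h : F.B x y = 0) : F.B y x = 0 := by
  rw [← F.symm, h, star_zero]

/-- the group of the isometries -/
def O : Subgroup (X ≃ₗ[R] X) where
  carrier := {φ | ∀ x y, F.B (φ x) (φ y) = F.B x y}
  mul_mem' := fun {a b} ha hb x y => by
    rw [LinearEquiv.mul_apply, LinearEquiv.mul_apply, ha, hb]
  one_mem' := fun _ _ => rfl
  inv_mem' := fun {a} ha x y => by
    have h := ha (a⁻¹ x) (a⁻¹ y)
    have e : ∀ z, a (a⁻¹ z) = z := fun z => by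
      rw [← LinearEquiv.mul_apply, mul_inv_cancel, LinearEquiv.coe_one, id]
    rw [e, e] at h
    exact h.symm

theorem mem_O {φ : X ≃ₗ[R] X} : φ ∈ F.O ↔ ∀ x y, F.B (φ x) (φ y) = F.B x y := Iff.rfl

end Frm

variable (F : Frm R X)

/-- the Eichler transformation -/
def psL (u y : X) (q : R) : X →ₗ[R] X where
  toFun x := x + F.B x y • u - F.B x u • y - (F.B x u * q) • u
  map_add' a b := by
    simp only [F.add_left, add_smul, add_mul]
    abel
  map_smul' a b := by
    simp only [F.smul_left, RingHom.id_apply, smul_sub, smul_add, smul_smul, mul_assoc]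

theorem psL_apply (u y : X) (q : R) (x : X) :
    psL F u y q x = x + F.B x y • u - F.B x u • y - (F.B x u * q) • u := rfl

/-- the conditions -/
structure Hp (u y : X) (q : R) : Prop where
  uu : F.B u u = 0
  yu : F.B y u = 0
  qq : F.B y y = q + star q

theorem Hp.uy {u y : X} {q : R} (h : Hp F u y q) : F.B u y = 0 := F.swap0 h.yu

theorem psL_comp {u y y' : X} (q q' : R) (hu : F.B u u = 0) (hy : F.B y u = 0)
    (hy' : F.B y' u = 0) (x : X) :
    psL F u y q (psL F u y' q' x) = psL F u (y + y') (q + q' + F.B y' y) x := by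
  have h1 : F.B u y = 0 := F.swap0 hy
  simp only [psL_apply, F.add_left, F.sub_left, F.smul_left, F.add_right, hu, hy', h1, mul_zero,
    add_zero, sub_zero, smul_add, add_smul, sub_smul, mul_add]
  abel

theorem Hp.neg {u y : X} {q : R} (h : Hp F u y q) : Hp F u (-y) (star q) where
  uu := h.uu
  yu := by rw [F.neg_left, h.yu, neg_zero]
  qq := by rw [F.neg_left, F.neg_right, neg_neg, h.qq, star_star, add_comm]

theorem psL_inv {u y : X} {q : R} (h : Hp F u y q) (x : X) :
    psL F u y q (psL F u (-y) (star q) x) = x := by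
  rw [psL_comp F _ _ h.uu h.yu h.neg.yu, F.neg_left, h.qq, psL_apply]
  simp [F.zero_right]

/-- the Eichler transformation -/
def ps {u y : X} {q : R} (h : Hp F u y q) : X ≃ₗ[R] X :=
  LinearEquiv.ofLinearMap (psL F u y q) (psL F u (-y) (star q))
    (LinearMap.ext fun x => psL_inv F h x)
    (LinearMap.ext fun x => by
      have := psL_inv F h.neg x
      rw [neg_neg, star_star] at this
      exact this)

theorem ps_apply {u y : X} {q : R} (h : Hp F u y q) (x : X) :
    ps F h x = x + F.B x y • u - F.B x u • y - (F.B x u * q) • u := rfl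

theorem ps_eq {u y : X} {q : R} (h : Hp F u y q) {u' y' : X} {q' : R} (h' : Hp F u' y' q')
    (e1 : u = u') (e2 : y = y') (e3 : q = q') : ps F h = ps F h' := by
  subst e1 e2 e3
  rfl

theorem ps_mem {u y : X} {q : R} (h : Hp F u y q) : ps F h ∈ F.O := by
  intro x z
  have h1 := h.uu
  have h2 := h.yu
  have h3 := h.uy
  have h4 := h.qq
  simp only [ps_apply, F.add_left, F.sub_left, F.smul_left, F.add_right, F.sub_right,
    F.smul_right, h1, h2, h3, h4, star_mul, F.symm, mul_zero, zero_mul, add_zero, zero_add,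
    sub_zero, zero_sub, mul_assoc]
  noncomm_ring

theorem ps_inv {u y : X} {q : R} (h : Hp F u y q) : (ps F h)⁻¹ = ps F h.neg := by
  rw [inv_eq_iff_mul_eq_one]
  exact LinearEquiv.ext fun x => psL_inv F h x

theorem ps_mul {u y y' : X} {q q' : R} (h : Hp F u y q) (h' : Hp F u y' q')
    (h'' : Hp F u (y + y') (q + q' + F.B y' y)) : ps F h * ps F h' = ps F h'' :=
  LinearEquiv.ext fun x => psL_comp F q q' h.uu h.yu h'.yu x

theorem ps_conj {u y : X} {q : R} (h : Hp F u y q) {φ : X ≃ₗ[R] X} (hφ : φ ∈ F.O)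
    (h' : Hp F (φ u) (φ y) q) : φ * ps F h * φ⁻¹ = ps F h' := by
  rw [mul_inv_eq_iff_eq_mul]
  refine LinearEquiv.ext fun x => ?_
  rw [LinearEquiv.mul_apply, LinearEquiv.mul_apply, ps_apply, ps_apply, map_sub, map_sub, map_add,
    map_smul, map_smul, map_smul, hφ, hφ]

/-- hyperbolic pairs -/
structure Hyp (e f : X) : Prop where
  ee : F.B e e = 0
  ff : F.B f f = 0
  ef : F.B e f = 1

theorem Hyp.fe {e f : X} (h : Hyp F e f) : F.B f e = 1 := by
  rw [← F.symm, h.ef, star_one]

/-- commutators of Eichler transformations -/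
theorem ps_comm {u y e f : X} {q : R} (h : Hp F u y q) (he : Hyp F e f) (eu : F.B e u = 0)
    (fu : F.B f u = 0) (ey : F.B e y = 0) (fy : F.B f y = 0) (h' : Hp F u (y + q • f) q) :
    ps F h' ∈ ⁅F.O, F.O⁆ := by
  have ha : Hp F u e 0 := ⟨h.uu, eu, by rw [he.ee, star_zero, add_zero]⟩
  have hb : Hp F f y q := ⟨he.ff, F.swap0 fy, h.qq⟩
  have uf := F.swap0 fu
  have ye := F.swap0 ey
  have yf := F.swap0 fy
  have hA : ps F ha ∈ F.O := ps_mem F ha
  have e1 : ps F ha f = f + u := by
    rw [ps_apply, he.fe, fu]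
    simp
  have e2 : ps F ha y = y := by
    rw [ps_apply, ye, h.yu]
    simp
  have hc : Hp F (ps F ha f) (ps F ha y) q := by
    refine ⟨?_, ?_, ?_⟩
    · rw [hA, he.ff]
    · rw [hA, yf]
    · rw [hA, h.qq]
  have h1 : ps F h' = ps F ha * ps F hb * (ps F ha)⁻¹ * (ps F hb)⁻¹ := by
    rw [ps_conj F hb hA hc, ps_inv]
    refine LinearEquiv.ext fun x => ?_
    have h4 : q + star q = F.B y y := h.qq.symm
    rw [LinearEquiv.mul_apply, ps_apply, ps_apply, ps_apply, e1, e2]
    simp only [F.add_left, F.sub_left, F.smul_left, F.add_right, F.sub_right, F.neg_left,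
      F.neg_right, F.smul_right, he.ff, fy, yf, uf, fu, h.yu, h.uy, h.qq, mul_zero, zero_mul,
      add_zero, zero_add, sub_zero, zero_sub, neg_zero, smul_add, smul_sub, smul_neg, smul_smul,
      add_smul, sub_smul, neg_smul, mul_add, mul_sub, mul_neg, add_mul, sub_mul, neg_mul, neg_neg]
    abel
  rw [h1]
  exact Subgroup.commutator_mem_commutator hA (ps_mem F hb)

/-- Eichler transformations are products of commutators. -/
theorem ps_mem_comm {u y e f e' f' : X} {q : R} (h : Hp F u y q) (he : Hyp F e f)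
    (he' : Hyp F e' f') (eu : F.B e u = 0) (fu : F.B f u = 0) (ey : F.B e y = 0)
    (fy : F.B f y = 0) (eu' : F.B e' u = 0) (fu' : F.B f' u = 0) (ef1 : F.B e' f = 0)
    (ef2 : F.B f' f = 0) : ps F h ∈ ⁅F.O, F.O⁆ := by
  have yf := F.swap0 fy
  have h1 : Hp F u (y + q • f) q := by
    refine ⟨h.uu, ?_, ?_⟩
    · rw [F.add_left, F.smul_left, h.yu, fu, mul_zero, add_zero]
    · simp only [F.add_left, F.smul_left, F.add_right, F.smul_right, yf, fy, he.ff, h.qq,
        mul_zero, zero_mul, add_zero]
  have h2 : Hp F u (-(q • f)) 0 := by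
    refine ⟨h.uu, ?_, ?_⟩
    · rw [F.neg_left, F.smul_left, fu, mul_zero, neg_zero]
    · simp only [F.neg_left, F.smul_left, F.neg_right, F.smul_right, he.ff,
        mul_zero, zero_mul, add_zero, neg_zero, star_zero]
  have h3 : Hp F u (-(q • f) + (0 : R) • f') 0 := by
    rw [zero_smul, add_zero]
    exact h2
  have h4 : ps F h1 ∈ ⁅F.O, F.O⁆ := ps_comm F h he eu fu ey fy h1
  have h5 : ps F h3 ∈ ⁅F.O, F.O⁆ := ps_comm F h2 he' eu' fu'
    (by rw [F.neg_right, F.smul_right, ef1, zero_mul, neg_zero])
    (by rw [F.neg_right, F.smul_right, ef2, zero_mul, neg_zero]) h3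
  have h6 : ps F h = ps F h1 * ps F h3 := by
    refine LinearEquiv.ext fun x => ?_
    have e := psL_comp F q 0 h1.uu h1.yu h3.yu x
    have e' : (ps F h1 * ps F h3) x = psL F u (y + q • f) q (psL F u
      (-(q • f) + (0 : R) • f') 0 x) := rfl
    have e3 : y + q • f + (-(q • f) + (0 : R) • f') = y := by
      rw [zero_smul]
      abel
    have e4 : q + 0 + F.B (-(q • f) + (0 : R) • f') (y + q • f) = q := by
      simp only [F.add_left, F.smul_left, F.add_right, F.smul_right, F.neg_left, he.ff,
        fy, mul_zero, zero_mul, add_zero, zero_smul, neg_zero]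
    rw [e', e, e3, e4]
    rfl
  rw [h6]
  exact mul_mem h4 h5

end Pool.Agent.X263.Od
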