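import Pool.Agent.X263.Od.Lat

/-!
Scaling a hyperbolic pair by a unit; isometries which fix an isotropic vector up to a unit.
-/

set_option autoImplicit false
set_option linter.unusedSectionVars false
set_option linter.unusedSimpArgs false

namespace Pool.Agent.X263.Od

variable {R : Type*} [Ring R] [StarRing R] {X : Type*} [AddCommGroup X] [Module R X]

variable (F : Frm R X)

/-- scaling of a pair -/
def hsL (e f : X) (a b : R) : X →ₗ[R] X where
  toFun x := x + (F.B x f * (a - 1)) • e + (F.B x e * (b - 1)) • f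
  map_add' x y := by
    simp only [F.add_left, add_smul, add_mul]
    abel
  map_smul' t x := by
    simp only [F.smul_left, RingHom.id_apply, smul_add, smul_smul, mul_assoc]

theorem hsL_apply (e f : X) (a b : R) (x : X) :
    hsL F e f a b x = x + (F.B x f * (a - 1)) • e + (F.B x e * (b - 1)) • f := rfl

variable {F}

theorem hsL_comp {e f : X} (h : Hyp F e f) (a b a' b' : R) (x : X) :
    hsL F e f a b (hsL F e f a' b' x) = hsL F e f (a' * a) (b' * b) x := by
  simp only [hsL_apply, F.add_left, F.smul_left, h.ee, h.ff, h.ef, h.fe, mul_zero, mul_one,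
    add_zero]
  have e1 : (F.B x f + F.B x f * (a' - 1)) * (a - 1) =
      F.B x f * (a' * a - 1) - F.B x f * (a' - 1) := by noncomm_ring
  have e2 : (F.B x e + F.B x e * (b' - 1)) * (b - 1) =
      F.B x e * (b' * b - 1) - F.B x e * (b' - 1) := by noncomm_ring
  rw [e1, e2, sub_smul, sub_smul]
  abel

theorem hsL_one {e f : X} (x : X) : hsL F e f 1 1 x = x := by
  simp [hsL_apply]

/-- scaling of a hyperbolic pair by a unit -/
def hs {e f : X} (h : Hyp F e f) (η : Rˣ) : X ≃ₗ[R] X :=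
  LinearEquiv.ofLinearMap (hsL F e f η (star ((η⁻¹ : Rˣ) : R)))
    (hsL F e f ((η⁻¹ : Rˣ) : R) (star (η : R)))
    (LinearMap.ext fun x => by
      rw [LinearMap.comp_apply, hsL_comp h, Units.inv_mul, ← star_mul, Units.inv_mul, star_one,
        hsL_one]
      rfl)
    (LinearMap.ext fun x => by
      rw [LinearMap.comp_apply, hsL_comp h, Units.mul_inv, ← star_mul, Units.mul_inv, star_one,
        hsL_one]
      rfl)

theorem hs_apply {e f : X} (h : Hyp F e f) (η : Rˣ) (x : X) :
    hs h η x = x + (F.B x f * (η - 1)) • e + (F.B x e * (star ((η⁻¹ : Rˣ) : R) - 1)) • f := rfl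

theorem hs_inv {e f : X} (h : Hyp F e f) (η : Rˣ) : (hs h η)⁻¹ = hs h η⁻¹ := by
  rw [inv_eq_iff_mul_eq_one]
  refine LinearEquiv.ext fun x => ?_
  change hsL F e f _ _ (hsL F e f _ _ x) = x
  rw [hsL_comp h, Units.inv_mul, ← star_mul, inv_inv, Units.inv_mul, star_one, hsL_one]

theorem hs_mem {e f : X} (h : Hyp F e f) (η : Rˣ) : hs h η ∈ F.O := by
  intro x z
  obtain ⟨a, ha⟩ : ∃ a, a = (η : R) := ⟨_, rfl⟩
  obtain ⟨b, hb⟩ : ∃ b, b = star ((η⁻¹ : Rˣ) : R) := ⟨_, rfl⟩
  have e1 : b * star a = 1 := by rw [ha, hb, ← star_mul, Units.mul_inv, star_one]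
  have e2 : a * star b = 1 := by rw [ha, hb, star_star, Units.mul_inv]
  rw [hs_apply, hs_apply, ← ha, ← hb]
  simp only [F.add_left, F.add_right, F.smul_left, F.smul_right, h.ee, h.ff, h.ef, h.fe,
    mul_zero, zero_mul, mul_one, one_mul, add_zero, zero_add, star_mul, star_sub, star_one, F.symm]
  have e3 : ∀ s t : R, s * ((star a - 1) * t) + s * (b - 1) * t +
      s * (b - 1) * ((star a - 1) * t) = 0 := fun s t => by
    have : s * ((star a - 1) * t) + s * (b - 1) * t + s * (b - 1) * ((star a - 1) * t) =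
      s * (b * star a - 1) * t := by noncomm_ring
    rw [this, e1, sub_self, mul_zero, zero_mul]
  have e4 : ∀ s t : R, s * ((star b - 1) * t) + s * (a - 1) * t +
      s * (a - 1) * ((star b - 1) * t) = 0 := fun s t => by
    have : s * ((star b - 1) * t) + s * (a - 1) * t + s * (a - 1) * ((star b - 1) * t) =
      s * (a * star b - 1) * t := by noncomm_ring
    rw [this, e2, sub_self, mul_zero, zero_mul]
  have e5 := e3 (F.B x e) (F.B f z)
  have e6 := e4 (F.B x f) (F.B e z)
  calc _ = F.B x z + (F.B x e * ((star a - 1) * F.B f z) + F.B x e * (b - 1) * F.B f z +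
      F.B x e * (b - 1) * ((star a - 1) * F.B f z)) +
      (F.B x f * ((star b - 1) * F.B e z) + F.B x f * (a - 1) * F.B e z +
      F.B x f * (a - 1) * ((star b - 1) * F.B e z)) := by abel
    _ = _ := by rw [e5, e6, add_zero, add_zero]

theorem Hyp.map {e f : X} (h : Hyp F e f) {φ : X ≃ₗ[R] X} (hφ : φ ∈ F.O) :
    Hyp F (φ e) (φ f) :=
  ⟨by rw [hφ, h.ee], by rw [hφ, h.ff], by rw [hφ, h.ef]⟩

theorem hs_conj {e f : X} (h : Hyp F e f) (η : Rˣ) {φ : X ≃ₗ[R] X} (hφ : φ ∈ F.O) :
    φ * hs h η * φ⁻¹ = hs (h.map hφ) η := by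
  rw [mul_inv_eq_iff_eq_mul]
  refine LinearEquiv.ext fun x => ?_
  rw [LinearEquiv.mul_apply, LinearEquiv.mul_apply, hs_apply, hs_apply, map_add, map_add,
    map_smul, map_smul, hφ, hφ]

theorem hs_eq {e f e' f' : X} (h : Hyp F e f) (h' : Hyp F e' f') (η : Rˣ) (e1 : e = e')
    (e2 : f = f') : hs h η = hs h' η := by
  subst e1 e2
  rfl

/-- exchanging two orthogonal hyperbolic pairs -/
theorem exists_swap {e f e' f' : X} (h : Hyp F e f) (h' : Hyp F e' f') (h1 : F.B e e' = 0)
    (h2 : F.B e f' = 0) (h3 : F.B f e' = 0) (h4 : F.B f f' = 0) :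
    ∃ s ∈ F.O, s e = e' ∧ s f = f' := by
  have h1' := F.swap0 h1
  have h2' := F.swap0 h2
  have h3' := F.swap0 h3
  have h4' := F.swap0 h4
  let u := e - e'
  let v := f - f'
  have uu : F.B u u = 0 := by
    simp only [u, F.sub_left, F.sub_right, h.ee, h'.ee, h1, h1']; simp
  have vv : F.B v v = 0 := by
    simp only [v, F.sub_left, F.sub_right, h.ff, h'.ff, h4, h4']; simp
  have uv : F.B u v = 2 := by
    simp only [u, v, F.sub_left, F.sub_right, h.ef, h'.ef, h2, h3']
    rw [sub_zero, zero_sub, sub_neg_eq_add]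
    exact one_add_one_eq_two
  have vu : F.B v u = 2 := by
    rw [← F.symm, uv]
    exact star_ofNat 2
  let g : X →ₗ[R] X :=
    { toFun := fun x => x - F.B x v • u - F.B x u • v
      map_add' := fun a b => by
        simp only [F.add_left, add_smul]
        abel
      map_smul' := fun t x => by
        simp only [F.smul_left, RingHom.id_apply, smul_sub, smul_smul] }
  have hg : ∀ x, g x = x - F.B x v • u - F.B x u • v := fun _ => rfl
  have hgg : ∀ x, g (g x) = x := fun x => by
    simp only [hg, F.sub_left, F.smul_left, uu, vv, uv, vu, mul_zero, sub_zero, mul_two,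
      sub_smul, add_smul]
    abel
  refine ⟨LinearEquiv.ofLinearMap g g (LinearMap.ext hgg) (LinearMap.ext hgg), ?_, ?_, ?_⟩
  · intro x z
    change F.B (g x) (g z) = F.B x z
    simp only [hg, F.sub_left, F.smul_left, F.sub_right, F.smul_right, uu, vv, uv, vu, mul_zero,
      zero_mul, sub_zero, F.symm, two_mul, mul_sub, mul_add]
    abel
  · change g e = e'
    have a1 : F.B e v = 1 := by simp only [v, F.sub_right, h.ef, h2, sub_zero]
    have a2 : F.B e u = 0 := by simp only [u, F.sub_right, h.ee, h1, sub_zero]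
    rw [hg, a1, a2, one_smul, zero_smul, sub_zero]
    exact sub_sub_cancel e e'
  · change g f = f'
    have a1 : F.B f v = 0 := by simp only [v, F.sub_right, h.ff, h4, sub_zero]
    have a2 : F.B f u = 1 := by simp only [u, F.sub_right, h.fe, h3, sub_zero]
    rw [hg, a1, a2, one_smul, zero_smul, sub_zero]
    exact sub_sub_cancel f f'

theorem hs_mod {e f e' f' : X} (h : Hyp F e f) (h' : Hyp F e' f') (h1 : F.B e e' = 0)
    (h2 : F.B e f' = 0) (h3 : F.B f e' = 0) (h4 : F.B f f' = 0) (η : Rˣ) :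
    (hs h' η)⁻¹ * hs h η ∈ ⁅F.O, F.O⁆ := by
  obtain ⟨s, hs1, e1, e2⟩ := exists_swap h h' h1 h2 h3 h4
  have e3 : s * hs h η * s⁻¹ = hs h' η := by
    rw [hs_conj h η hs1]
    exact hs_eq _ _ η e1 e2
  have e4 : hs h η = s⁻¹ * hs h' η * s := by
    rw [← e3]; group
  have e5 : (hs h' η)⁻¹ * hs h η = (hs h' η)⁻¹ * s⁻¹ * ((hs h' η)⁻¹)⁻¹ * (s⁻¹)⁻¹ := by
    rw [e4]; group
  rw [e5]
  exact Subgroup.commutator_mem_commutator (inv_mem (hs_mem h' η)) (inv_mem hs1)

/-- an isometry which fixes `e` and is the identity on `e^⊥` modulo `e` -/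
theorem rigid {e f : X} (h : Hyp F e f) {V : X ≃ₗ[R] X} (hV : V ∈ F.O) (h1 : V e = e)
    (h2 : ∀ x, F.B x e = 0 → ∃ t : R, V x = x + t • e) :
    ∃ (y : X) (q : R) (hp : Hp F e y q), V = ps F hp ∧ V f = f - y - q • e := by
  obtain ⟨q, hq⟩ : ∃ q, q = -F.B (V f) f := ⟨_, rfl⟩
  obtain ⟨y, hy⟩ : ∃ y, y = f - V f - q • e := ⟨_, rfl⟩
  have a1 : F.B (V f) e = 1 := by
    have := hV f e
    rwa [h1, h.fe] at this
  have a2 : F.B y e = 0 := by
    rw [hy, F.sub_left, F.sub_left, F.smul_left, h.fe, a1, h.ee]; simp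
  have a3 : F.B y f = 0 := by
    rw [hy, F.sub_left, F.sub_left, F.smul_left, h.ff, h.ef, hq]; simp
  have a4 : V f = f - y - q • e := by rw [hy]; abel
  have a5 : F.B y y = q + star q := by
    have := hV f f
    rw [a4] at this
    simp only [F.sub_left, F.sub_right, F.smul_left, F.smul_right, h.ff, h.ee, h.ef, h.fe, a2, a3,
      F.swap0 a2, F.swap0 a3, mul_zero, zero_mul, sub_zero, zero_sub, mul_one, one_mul] at this
    have e : F.B y y - (q + star q) = 0 := by
      rw [← this]; abel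
    exact sub_eq_zero.1 e
  refine ⟨y, q, ⟨h.ee, a2, a5⟩, ?_, a4⟩
  refine LinearEquiv.ext fun x => ?_
  obtain ⟨x₁, hx₁⟩ : ∃ x₁, x₁ = x - F.B x e • f := ⟨_, rfl⟩
  have b1 : F.B x₁ e = 0 := by
    rw [hx₁, F.sub_left, F.smul_left, h.fe, mul_one, sub_self]
  obtain ⟨t, ht⟩ := h2 x₁ b1
  have b2 : t = F.B x₁ y := by
    have := hV x₁ f
    rw [ht, a4] at this
    simp only [F.add_left, F.sub_right, F.smul_left, F.smul_right, h.ee, h.ef, b1,
      F.swap0 a2, mul_zero, zero_mul, sub_zero, mul_one, one_mul] at this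
    have e : t - F.B x₁ y = 0 := by
      have := sub_eq_zero.2 this
      rw [← this]; abel
    exact sub_eq_zero.1 e
  have b3 : F.B x₁ y = F.B x y := by
    rw [hx₁, F.sub_left, F.smul_left, F.swap0 a3, mul_zero, sub_zero]
  have b4 : x = x₁ + F.B x e • f := by rw [hx₁]; abel
  have b5 : V x = V x₁ + F.B x e • V f := by
    conv_lhs => rw [b4]
    rw [map_add, map_smul]
  rw [b5, ht, b2, b3, a4, ps_apply, hx₁]
  simp only [smul_sub, smul_smul]
  abel

end Pool.Agent.X263.Od
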