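import Pool.Agent.X263.Od.Mat

/-!
Isometries of an even unimodular form with constant entries off one row and one column.
-/

set_option autoImplicit false
set_option linter.unusedSectionVars false
set_option linter.unusedSimpArgs false

namespace Pool.Agent.X263.Od

open Matrix Sum

variable {R : Type*} [Ring R] [StarRing R] {n : Type*} [Fintype n] [DecidableEq n]

/-- constant matrices -/
def cm {m m' : Type*} (A : Matrix m m' ℤ) : Matrix m m' R := A.map fun z => (z : R)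

/-- three hyperbolic planes -/
def H3 : Matrix (Fin 3 ⊕ Fin 3) (Fin 3 ⊕ Fin 3) R := fromBlocks 0 1 1 0

/-- the form and three hyperbolic planes -/
def GX (J : Matrix n n ℤ) : Matrix (n ⊕ (Fin 3 ⊕ Fin 3)) (n ⊕ (Fin 3 ⊕ Fin 3)) R :=
  fromBlocks (cm J) 0 0 H3

theorem cm_mul (A B : Matrix n n ℤ) : (cm (A * B) : Matrix n n R) = cm A * cm B := by
  exact Matrix.map_mul (f := Int.castRingHom R)

theorem cm_one : (cm (1 : Matrix n n ℤ) : Matrix n n R) = 1 := by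
  ext i j
  simp [cm, Matrix.one_apply]

theorem cm_ct (A : Matrix n n ℤ) : (cm A : Matrix n n R)ᴴ = cm Aᵀ := by
  ext i j
  simp [cm, conjTranspose_apply]

theorem cm_mulVec (A : Matrix n n ℤ) (v : n → ℤ) :
    (cm A : Matrix n n R) *ᵥ (fun a => (v a : R)) = fun a => ((A *ᵥ v) a : R) := by
  ext a
  simp [cm, mulVec, dotProduct]

theorem cm_vecMul (A : Matrix n n ℤ) (v : n → ℤ) :
    (fun a => (v a : R)) ᵥ* (cm A : Matrix n n R) = fun a => ((v ᵥ* A) a : R) := by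
  ext a
  simp [cm, vecMul, dotProduct]

theorem GX_ct {J : Matrix n n ℤ} (hJ : Jᵀ = J) : (GX J : Matrix _ _ R)ᴴ = GX J := by
  unfold GX H3
  rw [fromBlocks_conjTranspose, fromBlocks_conjTranspose, cm_ct, hJ]
  simp

theorem fB {J : Matrix n n ℤ} (hJ : Jᵀ = J) (x z : n ⊕ (Fin 3 ⊕ Fin 3) → R) :
    (mfrm (GX J) (GX_ct hJ)).B x z =
      ((fun a => x (inl a)) ᵥ* cm J) ⬝ᵥ (fun a => star (z (inl a))) +
      (∑ t, x (inr (inr t)) * star (z (inr (inl t))) +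
        ∑ t, x (inr (inl t)) * star (z (inr (inr t)))) := by
  rw [mfrm_B, GX, H3, vecMul_fromBlocks, vecMul_fromBlocks]
  simp [dotProduct, Fintype.sum_sum_type, Function.comp_def]

/-- basis vectors of the planes -/
def ee (t : Fin 3) : n ⊕ (Fin 3 ⊕ Fin 3) → R := Sum.elim 0 (Sum.elim (Pi.single t 1) 0)

/-- basis vectors of the planes -/
def ff (t : Fin 3) : n ⊕ (Fin 3 ⊕ Fin 3) → R := Sum.elim 0 (Sum.elim 0 (Pi.single t 1))

theorem B_ee {J : Matrix n n ℤ} (hJ : Jᵀ = J) (x : n ⊕ (Fin 3 ⊕ Fin 3) → R) (t : Fin 3) :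
    (mfrm (GX J) (GX_ct hJ)).B x (ee t) = x (inr (inr t)) := by
  rw [fB hJ]
  simp only [ee, Sum.elim_inl, Sum.elim_inr, Pi.zero_apply, star_zero, mul_zero,
    Finset.sum_const_zero, add_zero]
  rw [Finset.sum_eq_single t]
  · simp [dotProduct]
  · intro s _ hs
    rw [Pi.single_eq_of_ne hs, star_zero, mul_zero]
  · intro h
    exact absurd (Finset.mem_univ _) h

theorem B_ff {J : Matrix n n ℤ} (hJ : Jᵀ = J) (x : n ⊕ (Fin 3 ⊕ Fin 3) → R) (t : Fin 3) :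
    (mfrm (GX J) (GX_ct hJ)).B x (ff t) = x (inr (inl t)) := by
  rw [fB hJ]
  simp only [ff, Sum.elim_inl, Sum.elim_inr, Pi.zero_apply, star_zero, mul_zero,
    Finset.sum_const_zero, add_zero, zero_add]
  rw [Finset.sum_eq_single t]
  · simp [dotProduct]
  · intro s _ hs
    rw [Pi.single_eq_of_ne hs, star_zero, mul_zero]
  · intro h
    exact absurd (Finset.mem_univ _) h

theorem hyp_t {J : Matrix n n ℤ} (hJ : Jᵀ = J) (t : Fin 3) :
    Hyp (mfrm (GX J) (GX_ct hJ)) (ee t : n ⊕ (Fin 3 ⊕ Fin 3) → R) (ff t) :=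
  ⟨by rw [B_ee hJ]; simp [ee], by rw [B_ff hJ]; simp [ff], by rw [B_ff hJ]; simp [ee]⟩

theorem opr_t {J : Matrix n n ℤ} (hJ : Jᵀ = J) {s t : Fin 3} (h : s ≠ t) :
    Opr (mfrm (GX J) (GX_ct hJ)) (ee s : n ⊕ (Fin 3 ⊕ Fin 3) → R) (ff s) (ee t) (ff t) :=
  ⟨by rw [B_ee hJ]; simp [ee], by rw [B_ff hJ]; simp [ee, h.symm],
    by rw [B_ee hJ]; simp [ff, h.symm], by rw [B_ff hJ]; simp [ff]⟩

/-- the lattice -/
def lat {J K : Matrix n n ℤ} (θ : Matrix n n ℤ) (hθ : J = θ + θᵀ) (hJ : Jᵀ = J) (hJK : J * K = 1) :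
    Lat (mfrm (GX J) (GX_ct (R := R) hJ)) (n → ℤ) where
  X0 :=
    { carrier := {x | ∀ s, x (inr s) = 0}
      add_mem' := fun {a b} ha hb s => by rw [Pi.add_apply, ha, hb, add_zero]
      zero_mem' := fun s => rfl
      smul_mem' := fun c x hx s => by rw [Pi.smul_apply, hx, smul_zero] }
  i := AddMonoidHom.mk' (fun v => Sum.elim (fun a => (v a : R)) 0) fun a b => by
    ext s
    rcases s with s | s <;> simp
  mem v s := rfl
  b v w := (v ᵥ* J) ⬝ᵥ w
  Bb v w := by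
    rw [fB hJ]
    simp only [AddMonoidHom.mk'_apply, Sum.elim_inl, Sum.elim_inr, Pi.zero_apply, zero_mul,
      Finset.sum_const_zero, add_zero, star_intCast, cm_vecMul]
    simp [dotProduct]
  nd x hx h := by
    have hKJ : K * J = 1 := mul_eq_one_comm.1 hJK
    ext s
    rcases s with l | s
    · have h1 := h (K l)
      rw [fB hJ] at h1
      simp only [AddMonoidHom.mk'_apply, Sum.elim_inl, Sum.elim_inr, Pi.zero_apply, zero_mul,
        Finset.sum_const_zero, add_zero, cm_vecMul] at h1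
      have h2 : K l ᵥ* J = Pi.single l 1 := by
        have h3 : K l ᵥ* J = (K * J) l := rfl
        rw [h3, hKJ]
        ext j
        rw [Matrix.one_apply, Pi.single_apply]
        simp [eq_comm]
      rw [h2] at h1
      have h4 : star (x (inl l)) = 0 := by
        rw [← h1, dotProduct, Finset.sum_eq_single l]
        · simp
        · intro s _ hs
          rw [Pi.single_eq_of_ne hs, Int.cast_zero, zero_mul]
        · intro h
          exact absurd (Finset.mem_univ _) h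
      exact star_eq_zero.1 h4
    · exact hx s
  add u v w := by rw [add_vecMul, add_dotProduct]
  sym u v := by
    rw [← dotProduct_mulVec, dotProduct_comm, ← vecMul_transpose, hJ]
  ev v := by
    refine ⟨(v ᵥ* θ) ⬝ᵥ v, ?_⟩
    rw [hθ, vecMul_add, add_dotProduct]
    congr 1
    rw [vecMul_transpose, dotProduct_comm, dotProduct_mulVec]
  um x c h := by
    have h2 : ∀ l, (x ᵥ* J) ⬝ᵥ (fun a => K a l) = x l := fun l => by
      have h3 : (x ᵥ* J) ⬝ᵥ (fun a => K a l) = ((x ᵥ* J) ᵥ* K) l := rfl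
      rw [h3, vecMul_vecMul, hJK, vecMul_one]
    have h3 : ∀ l, ∃ y, x l = c * y := fun l => by
      obtain ⟨y, hy⟩ := h (fun a => K a l)
      exact ⟨y, (h2 l).symm.trans hy⟩
    choose y hy using h3
    exact ⟨y, funext hy⟩

/-- the scaling of the first plane -/
def scl (η : Rˣ) : (Matrix (n ⊕ (Fin 3 ⊕ Fin 3)) (n ⊕ (Fin 3 ⊕ Fin 3)) R)ˣ where
  val := diagonal (Sum.elim 1 (Sum.elim (fun t => if t = 0 then (η : R) else 1)
    fun t => if t = 0 then star ((η⁻¹ : Rˣ) : R) else 1))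
  inv := diagonal (Sum.elim 1 (Sum.elim (fun t => if t = 0 then ((η⁻¹ : Rˣ) : R) else 1)
    fun t => if t = 0 then star (η : R) else 1))
  val_inv := by
    rw [diagonal_mul_diagonal, ← diagonal_one]
    congr 1
    ext s
    rcases s with s | s | s
    · simp
    · by_cases h : s = 0 <;> simp [h]
    · by_cases h : s = 0 <;> simp [h, ← star_mul]
  inv_val := by
    rw [diagonal_mul_diagonal, ← diagonal_one]
    congr 1
    ext s
    rcases s with s | s | s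
    · simp
    · by_cases h : s = 0 <;> simp [h]
    · by_cases h : s = 0 <;> simp [h, ← star_mul]

theorem mv_scl {J : Matrix n n ℤ} (hJ : Jᵀ = J) (η : Rˣ) :
    mv (scl η) = hs (hyp_t (n := n) (R := R) hJ 0) η := by
  refine LinearEquiv.ext fun x => ?_
  rw [hs_apply, B_ee hJ, B_ff hJ, mv_apply]
  ext s
  rw [scl, vecMul_diagonal]
  rcases s with s | s | s
  · simp [ee, ff]
  · by_cases h : s = 0
    · simp [ee, ff, h, mul_sub]
    · simp [ee, ff, h]
  · by_cases h : s = 0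
    · simp [ee, ff, h, mul_sub]
    · simp [ee, ff, h]

/-- the sum of a matrix and an identity matrix -/
def stu (U : (Matrix n n R)ˣ) : (Matrix (n ⊕ (Fin 3 ⊕ Fin 3)) (n ⊕ (Fin 3 ⊕ Fin 3)) R)ˣ where
  val := fromBlocks U.val 0 0 1
  inv := fromBlocks (U⁻¹).val 0 0 1
  val_inv := by
    rw [fromBlocks_multiply]
    simp
  inv_val := by
    rw [fromBlocks_multiply]
    simp

theorem stu_mul (U V : (Matrix n n R)ˣ) : stu (U * V) = stu U * stu V := by
  refine Units.ext ?_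
  change fromBlocks _ _ _ _ = fromBlocks _ _ _ _ * fromBlocks _ _ _ _
  rw [fromBlocks_multiply]
  simp

theorem mv_inv {m : Type*} [Fintype m] [DecidableEq m] (A : (Matrix m m R)ˣ) :
    mv A⁻¹ = (mv A)⁻¹ := by
  rw [eq_inv_iff_mul_eq_one, ← mv_mul, mul_inv_cancel]
  refine LinearEquiv.ext fun x => ?_
  rw [mv_apply, Units.val_one, vecMul_one]
  rfl

/-- constant invertible matrices -/
def cu (E : (Matrix n n ℤ)ˣ) : (Matrix n n R)ˣ :=
  ⟨cm E.val, cm (E⁻¹).val, by rw [← cm_mul, Units.mul_inv, cm_one],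
    by rw [← cm_mul, Units.inv_mul, cm_one]⟩

theorem border (hR : ∀ (n : ℤ) (a : R), n ≠ 0 → n • a = 0 → a = 0) (ε : R →+* ℤ)
    (hε : ∀ r, ε (star r) = ε r) {J K : Matrix n n ℤ} (θ : Matrix n n ℤ) (hθ : J = θ + θᵀ)
    (hJ : Jᵀ = J) (hJK : J * K = 1) (i₀ j₀ : n) (hi : K i₀ i₀ = 0) (hj : θ j₀ j₀ = 0)
    (U : (Matrix n n R)ˣ) (hU : U.val * cm J * U.valᴴ = cm J)
    (hc : ∀ i j, i ≠ i₀ → j ≠ j₀ → ∃ z : ℤ, U.val i j = z) :
    ∃ η : Rˣ, ε η = 1 ∧ ∃ C ∈ ⁅OM (GX (R := R) J), OM (GX (R := R) J)⁆,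
      stu U = C * scl η * stu (cu (Units.map ε.mapMatrix.toMonoidHom U)) := by
  obtain ⟨E, hE⟩ : ∃ E, E = Units.map ε.mapMatrix.toMonoidHom U := ⟨_, rfl⟩
  rw [← hE]
  have hEv : E.val = U.val.map ε := by rw [hE]; rfl
  have hεc : ∀ z : ℤ, ε (z : R) = z := fun z => by rw [map_intCast]; rfl
  have hEJ : E.val * J * E.valᵀ = J := by
    have h1 := congrArg (fun M : Matrix n n R => M.map ε) hU
    have h2 : (cm J : Matrix n n R).map ε = J := by
      ext i j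
      simp [cm]
    have h3 : U.valᴴ.map ε = E.valᵀ := by
      rw [hEv]
      ext i j
      simp [conjTranspose_apply, hε]
    simp only [Matrix.map_mul] at h1
    rw [h2, h3, ← hEv] at h1
    exact h1
  have hEJ' : (E⁻¹).val * J * (E⁻¹).valᵀ = J := by
    have e1 : (E⁻¹).val * E.val = 1 := Units.inv_mul E
    have e2 : E.valᵀ * (E⁻¹).valᵀ = 1 := by rw [← transpose_mul, e1, transpose_one]
    calc (E⁻¹).val * J * (E⁻¹).valᵀ = (E⁻¹).val * (E.val * J * E.valᵀ) * (E⁻¹).valᵀ := by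
          rw [hEJ]
      _ = ((E⁻¹).val * E.val) * J * (E.valᵀ * (E⁻¹).valᵀ) := by simp only [Matrix.mul_assoc]
      _ = J := by rw [e1, e2, Matrix.one_mul, Matrix.mul_one]
  obtain ⟨W, hW⟩ : ∃ W : (Matrix n n R)ˣ, W = U * (cu E)⁻¹ := ⟨_, rfl⟩
  have hKJ : K * J = 1 := mul_eq_one_comm.1 hJK
  -- the difference
  obtain ⟨D, hD⟩ : ∃ D : Matrix n n R, D = U.val - cm E.val := ⟨_, rfl⟩
  have hD0 : ∀ i j, i ≠ i₀ → j ≠ j₀ → D i j = 0 := fun i j a b => by
    obtain ⟨z, hz⟩ := hc i j a b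
    rw [hD, Matrix.sub_apply, hEv]
    simp [cm, hz]
  have hDe : ∀ i j, ε (D i j) = 0 := fun i j => by
    rw [hD, Matrix.sub_apply, map_sub, hEv]
    simp [cm]
  obtain ⟨cc, hcc⟩ : ∃ cc : n → R, cc = fun i => if i = i₀ then 0 else D i j₀ := ⟨_, rfl⟩
  have hxD : ∀ x : n → R, x ᵥ* D = x i₀ • D i₀ + (x ⬝ᵥ cc) • (Pi.single j₀ 1 : n → R) := by
    intro x
    ext j
    simp only [vecMul, dotProduct, Pi.add_apply, Pi.smul_apply, smul_eq_mul]
    by_cases h : j = j₀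
    · subst h
      rw [Pi.single_eq_same, mul_one, ← Finset.add_sum_erase _ _ (Finset.mem_univ i₀)]
      congr 1
      rw [← Finset.add_sum_erase _ (fun i => x i * cc i) (Finset.mem_univ i₀)]
      have h1 : cc i₀ = 0 := by rw [hcc]; simp
      rw [h1, mul_zero, zero_add]
      refine Finset.sum_congr rfl fun i hi => ?_
      rw [hcc]
      simp [Finset.ne_of_mem_erase hi]
    · rw [Pi.single_eq_of_ne h, mul_zero, add_zero,
        ← Finset.add_sum_erase _ _ (Finset.mem_univ i₀), Finset.sum_eq_zero, add_zero]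
      intro i hi
      rw [hD0 i j (Finset.ne_of_mem_erase hi) h, mul_zero]
  have hWv : W.val = 1 + D * cm (E⁻¹).val := by
    have h1 : W.val = U.val * cm (E⁻¹).val := by rw [hW]; rfl
    rw [h1, hD, sub_mul, ← cm_mul, Units.mul_inv, cm_one]
    abel
  obtain ⟨k, hk⟩ : ∃ k : n → ℤ, k = Pi.single j₀ 1 ᵥ* (E⁻¹).val := ⟨_, rfl⟩
  obtain ⟨p, hp⟩ : ∃ p : n → ℤ, p = K *ᵥ Pi.single i₀ 1 := ⟨_, rfl⟩
  have hpJ : p ᵥ* J = Pi.single i₀ 1 := by
    rw [hp, ← mulVec_transpose, hJ, mulVec_mulVec, hJK, one_mulVec]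
  have hJp : J *ᵥ p = Pi.single i₀ 1 := by
    rw [hp, mulVec_mulVec, hJK, one_mulVec]
  obtain ⟨κ, hκ⟩ : ∃ κ : n → R, κ = star ((cm K : Matrix n n R) *ᵥ cc) := ⟨_, rfl⟩
  obtain ⟨L, hL⟩ : ∃ L, L = lat (R := R) θ hθ hJ hJK := ⟨_, rfl⟩
  have hLi : ∀ v, L.i v = Sum.elim (fun a => (v a : R)) 0 := fun v => by rw [hL]; rfl
  have hLb : ∀ v w, L.b v w = (v ᵥ* J) ⬝ᵥ w := fun v w => by rw [hL]; rfl
  have hLX : ∀ x, x ∈ L.X0 ↔ ∀ s, x (inr s) = 0 := fun x => by rw [hL]; rfl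
  have bκ : ∀ x : n ⊕ (Fin 3 ⊕ Fin 3) → R,
      (mfrm (GX J) (GX_ct hJ)).B x (Sum.elim κ 0) = (fun a => x (inl a)) ⬝ᵥ cc := fun x => by
    rw [fB hJ]
    simp only [Sum.elim_inl, Sum.elim_inr, Pi.zero_apply, star_zero, mul_zero,
      Finset.sum_const_zero, add_zero]
    have h1 : (fun a => star (κ a)) = (cm K : Matrix n n R) *ᵥ cc := by
      rw [hκ]
      ext a
      simp
    rw [h1, dotProduct_mulVec, vecMul_vecMul, ← cm_mul, hJK, cm_one, vecMul_one]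
  have bp : ∀ x : n ⊕ (Fin 3 ⊕ Fin 3) → R,
      (mfrm (GX J) (GX_ct hJ)).B x (L.i p) = x (inl i₀) := fun x => by
    rw [fB hJ, hLi]
    simp only [Sum.elim_inl, Sum.elim_inr, Pi.zero_apply, star_zero, mul_zero,
      Finset.sum_const_zero, add_zero, star_intCast]
    rw [← dotProduct_mulVec, cm_mulVec, hJp]
    simp [dotProduct, Pi.single_apply]
  have hWO : stu W ∈ OM (GX (R := R) J) := by
    rw [mem_OM]
    change fromBlocks _ _ _ _ * fromBlocks _ _ _ _ * (fromBlocks _ _ _ _)ᴴ = fromBlocks _ _ _ _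
    rw [fromBlocks_conjTranspose, fromBlocks_multiply, fromBlocks_multiply]
    have h1 : W.val * cm J * W.valᴴ = cm J := by
      have e1 : W.val = U.val * cm (E⁻¹).val := by rw [hW]; rfl
      rw [e1, conjTranspose_mul, cm_ct]
      calc U.val * cm (E⁻¹).val * cm J * (cm ((E⁻¹).val)ᵀ * U.valᴴ)
          = U.val * (cm (E⁻¹).val * cm J * cm ((E⁻¹).val)ᵀ) * U.valᴴ := by
            simp only [Matrix.mul_assoc]
        _ = cm J := by rw [← cm_mul, ← cm_mul, hEJ', hU]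
    simp [h1]
  have hV : ∀ x, mv (stu W) x = x + (mfrm (GX J) (GX_ct hJ)).B x (L.i p) •
      (Sum.elim (D i₀ ᵥ* cm (E⁻¹).val) 0 : n ⊕ (Fin 3 ⊕ Fin 3) → R) +
      (mfrm (GX J) (GX_ct hJ)).B x (Sum.elim κ 0) • L.i k := by
    intro x
    rw [bp, bκ, mv_apply, hLi]
    change x ᵥ* fromBlocks _ _ _ _ = _
    rw [vecMul_fromBlocks]
    have e1 : (x ∘ inl) ᵥ* W.val = (x ∘ inl) + x (inl i₀) • (D i₀ ᵥ* cm (E⁻¹).val) +
        ((x ∘ inl) ⬝ᵥ cc) • (fun a => (k a : R)) := by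
      rw [hWv, vecMul_add, vecMul_one, ← vecMul_vecMul, hxD, add_vecMul, smul_vecMul, smul_vecMul,
        ← add_assoc]
      congr 2
      have e2 : (Pi.single j₀ 1 : n → R) = fun a => ((Pi.single j₀ 1 : n → ℤ) a : R) := by
        ext a
        by_cases h : a = j₀
        · subst h; simp
        · simp [h]
      rw [e2, cm_vecMul, ← hk]
    rw [e1]
    ext s
    rcases s with s | s
    · simp
      rfl
    · simp
  have pe : ∀ t, ∀ x ∈ L.X0, (mfrm (GX J) (GX_ct hJ)).B (ee t) x = 0 := fun t x hx =>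
    (mfrm (GX J) (GX_ct hJ)).swap0 (by rw [B_ee hJ]; exact (hLX x).1 hx _)
  have pf : ∀ t, ∀ x ∈ L.X0, (mfrm (GX J) (GX_ct hJ)).B (ff t) x = 0 := fun t x hx =>
    (mfrm (GX J) (GX_ct hJ)).swap0 (by rw [B_ff hJ]; exact (hLX x).1 hx _)
  obtain ⟨η, h1, h2⟩ := L.main hR (p := p) (k := k) (p' := Pi.single i₀ 1)
    (k' := K *ᵥ (E.val *ᵥ Pi.single j₀ 1))
    (by rw [hLb, hpJ, hp]; simp [hi])
    (by
      have e1 : ∀ x : n → ℤ, x ⬝ᵥ (Pi.single j₀ 1 ᵥ* (E⁻¹).val) =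
          (x ᵥ* (E⁻¹).valᵀ) ⬝ᵥ Pi.single j₀ 1 := fun x => by
        rw [← mulVec_transpose, dotProduct_mulVec]
      rw [hLb, hk, e1, vecMul_vecMul, vecMul_vecMul, ← Matrix.mul_assoc, hEJ', hθ]
      simp [hj])
    (by rw [hLb, hpJ]; simp)
    (by
      rw [hLb, dotProduct_mulVec, vecMul_vecMul, hJK, vecMul_one, hk, dotProduct_mulVec,
        vecMul_vecMul, Units.inv_mul, vecMul_one]
      simp)
    (mv (stu W)) ((mem_OM_iff (GX_ct hJ)).1 hWO) (ω := Sum.elim (D i₀ ᵥ* cm (E⁻¹).val) 0)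
    (κ := Sum.elim κ 0) ((hLX _).2 fun s => rfl) ((hLX _).2 fun s => rfl) hV
    (e₁ := ee 0) (f₁ := ff 0) (e₂ := ee 1) (f₂ := ff 1) (e₃ := ee 2) (f₃ := ff 2)
    ⟨hyp_t hJ 0, pe 0, pf 0⟩ ⟨hyp_t hJ 1, pe 1, pf 1⟩ ⟨hyp_t hJ 2, pe 2, pf 2⟩
    (opr_t hJ (by decide)) (opr_t hJ (by decide)) (opr_t hJ (by decide))
  refine ⟨η, ?_, stu W * (scl η)⁻¹, comm_mem (GX_ct hJ) ?_, ?_⟩
  · refine h1 ε fun v => ?_
    rw [bκ, hLi]
    simp only [Sum.elim_inl, dotProduct]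
    rw [map_sum]
    refine Finset.sum_eq_zero fun i _ => ?_
    rw [map_mul, hcc]
    by_cases h : i = i₀ <;> simp [h, hDe]
  · rw [mv_mul, mv_inv, mv_scl hJ]
    exact h2
  · rw [inv_mul_cancel_right, ← stu_mul, hW, inv_mul_cancel_right]

end Pool.Agent.X263.Od
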