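import Pool.Agent.X263.Od.Fin
import Pool.Agent.X263.Qf.Aug
import Pool.Agent.TH57.TT2.KR4

/-!
Isometries over integral group rings with monomial entries off one row and one column.
-/

set_option autoImplicit false
set_option linter.unusedSectionVars false
set_option linter.unusedSimpArgs false

namespace Pool.Agent.X263.Od

open Matrix Sum TH6.PF Pool.Agent.X263.Qf

section

variable {R : Type*} [Ring R] [StarRing R] {n : Type*} [Fintype n] [DecidableEq n]

theorem stu_inv (U : (Matrix n n R)ˣ) : stu U⁻¹ = (stu U)⁻¹ := by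
  rw [eq_inv_iff_mul_eq_one, ← stu_mul, inv_mul_cancel]
  refine Units.ext ?_
  change fromBlocks _ _ _ _ = _
  rw [Units.val_one, Units.val_one, fromBlocks_one]

theorem stu_mem {J : Matrix n n ℤ} {U : (Matrix n n R)ˣ} (hU : U.val * cm J * U.valᴴ = cm J) :
    stu U ∈ OM (GX (R := R) J) := by
  rw [mem_OM]
  change fromBlocks _ _ _ _ * fromBlocks _ _ _ _ * (fromBlocks _ _ _ _)ᴴ = fromBlocks _ _ _ _
  rw [fromBlocks_conjTranspose, fromBlocks_multiply, fromBlocks_multiply]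
  simp [hU]

theorem scl_comm (η : Rˣ) (U : (Matrix n n R)ˣ) : scl η * stu U = stu U * scl η := by
  refine Units.ext ?_
  change diagonal _ * fromBlocks _ _ _ _ = fromBlocks _ _ _ _ * diagonal _
  ext s t
  rw [diagonal_mul, mul_diagonal]
  rcases s with s | s <;> rcases t with t | t
  · simp
  · simp
  · simp
  · rw [fromBlocks_apply₂₂, Matrix.one_apply]
    by_cases h : s = t
    · subst h
      simp
    · simp [h]

theorem OM_conj {G : Matrix n n R} {A C : (Matrix n n R)ˣ} (hA : A ∈ OM G)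
    (hC : C ∈ ⁅OM G, OM G⁆) : A * C * A⁻¹ ∈ ⁅OM G, OM G⁆ := by
  have hle : ⁅OM G, OM G⁆ ≤ OM G := Subgroup.commutator_le.2 fun g₁ h₁ g₂ h₂ =>
    mul_mem (mul_mem (mul_mem h₁ h₂) (inv_mem h₁)) (inv_mem h₂)
  have h : A * C * A⁻¹ * C⁻¹ ∈ ⁅OM G, OM G⁆ :=
    Subgroup.commutator_mem_commutator hA (hle hC)
  have h1 : A * C * A⁻¹ = A * C * A⁻¹ * C⁻¹ * C := by group
  rw [h1]
  exact mul_mem h hC

end

variable {G : Type} [Group G]

theorem int_sg (z : ℤ) : (z : MonoidAlgebra ℤ G) = MonoidAlgebra.single 1 z := by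
  have h := map_intCast (MonoidAlgebra.singleOneRingHom : ℤ →+* MonoidAlgebra ℤ G) z
  rw [← h]
  rfl

/-- diagonal matrices of group elements -/
noncomputable def dgu {n : ℕ} (g : Fin n → G) :
    (Matrix (Fin n) (Fin n) (MonoidAlgebra ℤ G))ˣ where
  val := diagonal fun i => MonoidAlgebra.single (g i) 1
  inv := diagonal fun i => MonoidAlgebra.single (g i)⁻¹ 1
  val_inv := by
    rw [diagonal_mul_diagonal, ← diagonal_one]
    congr 1
    ext1 i
    rw [MonoidAlgebra.single_mul_single, mul_inv_cancel, mul_one, MonoidAlgebra.one_def]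
  inv_val := by
    rw [diagonal_mul_diagonal, ← diagonal_one]
    congr 1
    ext1 i
    rw [MonoidAlgebra.single_mul_single, inv_mul_cancel, mul_one, MonoidAlgebra.one_def]

theorem grp (n : ℕ) (θ K : Matrix (Fin n) (Fin n) ℤ) (hK : (θ + θᵀ) * K = 1)
    (i₀ j₀ : Fin n) (hi : K i₀ i₀ = 0) (hj : θ j₀ j₀ = 0) (g h : Fin n → G)
    (hg : ∀ i j, (θ + θᵀ) i j ≠ 0 → g i = g j) (hh : ∀ i j, (θ + θᵀ) i j ≠ 0 → h i = h j)
    (U : (Matrix (Fin n) (Fin n) (MonoidAlgebra ℤ G))ˣ)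
    (hU : U.val * (θ + θᵀ).map (MonoidAlgebra.single 1) * sadj 1 U.val =
      (θ + θᵀ).map (MonoidAlgebra.single 1))
    (hc : ∀ i j, i ≠ i₀ → j ≠ j₀ → ∃ r : ℤ, U.val i j = MonoidAlgebra.single (g i * (h j)⁻¹) r)
    (O : Subgroup (Matrix (Fin n ⊕ (Fin 3 ⊕ Fin 3)) (Fin n ⊕ (Fin 3 ⊕ Fin 3))
      (MonoidAlgebra ℤ G))ˣ)
    (hO : ∀ A, A ∈ O ↔ A.val * fromBlocks ((θ + θᵀ).map (MonoidAlgebra.single 1)) 0 0
      (fromBlocks 0 1 1 0) * sadj 1 A.val =
      fromBlocks ((θ + θᵀ).map (MonoidAlgebra.single 1)) 0 0 (fromBlocks 0 1 1 0)) :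
    ∃ η : (MonoidAlgebra ℤ G)ˣ, η.val.coeff.sum (fun _ r => r) = 1 ∧
      (UniqueProds G → ∃ γ : G, η.val = MonoidAlgebra.single γ 1) ∧
      ∃ C ∈ ⁅O, O⁆, fromBlocks U.val 0 0 1 = C.val *
        diagonal (Sum.elim 1 (Sum.elim (fun t => if t = 0 then η.val else 1)
          fun t => if t = 0 then sbar 1 (η⁻¹).val else 1)) *
        fromBlocks (Matrix.of fun i j => MonoidAlgebra.single (g i * (h j)⁻¹)
          ((U.val i j).coeff.sum fun _ r => r)) 0 0 1 := by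
  let _ := sr (R := ℤ) (1 : G →* ℤˣ)
  have hstar : ∀ x : MonoidAlgebra ℤ G, star x = sbar 1 x := fun _ => rfl
  have hJ : (θ + θᵀ)ᵀ = θ + θᵀ := by
    rw [transpose_add, transpose_transpose, add_comm]
  have hcm : ∀ M : Matrix (Fin n) (Fin n) ℤ,
      (cm M : Matrix (Fin n) (Fin n) (MonoidAlgebra ℤ G)) = M.map (MonoidAlgebra.single 1) :=
    fun M => by
      ext1 i j
      exact int_sg _
  have hR : ∀ (m : ℤ) (a : MonoidAlgebra ℤ G), m ≠ 0 → m • a = 0 → a = 0 := fun m a hm ha => by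
    ext γ
    have h1 := congrArg (fun z => z.coeff γ) ha
    simp only [MonoidAlgebra.coeff_smul, Finsupp.smul_apply, smul_eq_mul] at h1
    exact (mul_eq_zero.1 h1).resolve_left hm
  have hdg : ∀ f : Fin n → G, (∀ i j, (θ + θᵀ) i j ≠ 0 → f i = f j) →
      (dgu f).val * cm (θ + θᵀ) * (dgu f).valᴴ = cm (θ + θᵀ) := fun f hf => by
    change diagonal _ * _ * (diagonal _)ᴴ = _
    rw [diagonal_conjTranspose]
    ext1 i j
    rw [mul_diagonal, diagonal_mul, Pi.star_apply, hstar, sbar_single, hcm, Matrix.map_apply,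
      MonoidAlgebra.single_mul_single, MonoidAlgebra.single_mul_single]
    by_cases h0 : (θ + θᵀ) i j = 0
    · rw [h0]; simp
    · rw [hf i j h0]; simp
  have hUO : U.val * cm (θ + θᵀ) * U.valᴴ = cm (θ + θᵀ) := by
    rw [hcm]
    exact hU
  have hOM : OM (GX (R := MonoidAlgebra ℤ G) (θ + θᵀ)) = O := by
    ext A
    rw [hO, mem_OM, GX, hcm]
    rfl
  have hmul : ∀ {A B : (Matrix (Fin n) (Fin n) (MonoidAlgebra ℤ G))ˣ},
      A.val * cm (θ + θᵀ) * A.valᴴ = cm (θ + θᵀ) → B.val * cm (θ + θᵀ) * B.valᴴ = cm (θ + θᵀ) →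
      (A * B).val * cm (θ + θᵀ) * (A * B).valᴴ = cm (θ + θᵀ) := fun {A B} a b =>
    mem_OM.1 (mul_mem (mem_OM.2 a : A ∈ OM (cm (θ + θᵀ))) (mem_OM.2 b))
  have hinv : ∀ {A : (Matrix (Fin n) (Fin n) (MonoidAlgebra ℤ G))ˣ},
      A.val * cm (θ + θᵀ) * A.valᴴ = cm (θ + θᵀ) →
      (A⁻¹).val * cm (θ + θᵀ) * (A⁻¹).valᴴ = cm (θ + θᵀ) := fun {A} a =>
    mem_OM.1 (inv_mem (mem_OM.2 a : A ∈ OM (cm (θ + θᵀ))))
  obtain ⟨V, hV⟩ : ∃ V, V = (dgu g)⁻¹ * U * dgu h := ⟨_, rfl⟩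
  have hVe : ∀ i j, V.val i j = MonoidAlgebra.single (g i)⁻¹ 1 * U.val i j *
      MonoidAlgebra.single (h j) 1 := fun i j => by
    rw [hV]
    change (diagonal _ * U.val * diagonal _ : Matrix _ _ _) i j = _
    rw [mul_diagonal, diagonal_mul]
  have hVc : ∀ i j, i ≠ i₀ → j ≠ j₀ → ∃ z : ℤ, V.val i j = z := fun i j a b => by
    obtain ⟨r, hr⟩ := hc i j a b
    refine ⟨r, ?_⟩
    rw [hVe, hr, MonoidAlgebra.single_mul_single, MonoidAlgebra.single_mul_single, int_sg]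
    congr 1
    · group
    · simp
  have hVa : ∀ i j, augm ℤ G (V.val i j) = augm ℤ G (U.val i j) := fun i j => by
    rw [hVe, map_mul, map_mul, augm_single, augm_single, one_mul, mul_one]
  obtain ⟨η, h1, C, hC, h2⟩ := border hR (augm ℤ G)
    (fun r => by rw [hstar, augm_sbar, star_trivial]) θ rfl hJ hK i₀ j₀ hi hj V
    (by rw [hV]; exact hmul (hmul (hinv (hdg g hg)) hUO) (hdg h hh)) hVc
  refine ⟨η, by rw [← augm_eq, h1], fun _ => ?_, stu (dgu g) * C * (stu (dgu g))⁻¹, ?_, ?_⟩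
  · obtain ⟨r, γ, hr⟩ := TH57.TT2.unit_trivial η
    refine ⟨γ, ?_⟩
    rw [hr, augm_single] at h1
    rw [hr, h1]
  · rw [← hOM]
    exact OM_conj (stu_mem (hdg g hg)) hC
  · have h3 : stu U = stu (dgu g) * C * (stu (dgu g))⁻¹ * scl η *
        stu (dgu g * cu (Units.map (augm ℤ G).mapMatrix.toMonoidHom V) * (dgu h)⁻¹) := by
      have e1 : U = dgu g * V * (dgu h)⁻¹ := by rw [hV]; group
      rw [stu_mul, stu_mul, e1, stu_mul, stu_mul, h2]
      have e2 := scl_comm η (dgu g)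
      calc stu (dgu g) * (C * scl η * stu (cu (Units.map (augm ℤ G).mapMatrix.toMonoidHom V))) *
            stu (dgu h)⁻¹
          = stu (dgu g) * C * (stu (dgu g))⁻¹ * (stu (dgu g) * scl η) *
            stu (cu (Units.map (augm ℤ G).mapMatrix.toMonoidHom V)) * stu (dgu h)⁻¹ := by group
        _ = _ := by rw [← e2]; group
    have h4 := congrArg Units.val h3
    have h5 : (dgu g * cu (Units.map (augm ℤ G).mapMatrix.toMonoidHom V) * (dgu h)⁻¹).val =
        Matrix.of fun i j => MonoidAlgebra.single (g i * (h j)⁻¹)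
          ((U.val i j).coeff.sum fun _ r => r) := by
      ext1 i j
      change (diagonal _ * (cm (V.val.map (augm ℤ G))) * diagonal _ : Matrix _ _ _) i j = _
      rw [mul_diagonal, diagonal_mul, hcm, Matrix.map_apply, Matrix.map_apply, hVa, augm_eq,
        MonoidAlgebra.single_mul_single, MonoidAlgebra.single_mul_single, Matrix.of_apply]
      simp
    rw [← h5]
    exact h4


end Pool.Agent.X263.Od
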