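import Pool.Agent.X263.Od.Basic

/-!
An isometry along two integral isotropic vectors `p` and `m p + c k` is a product of Eichler
transformations, once one more isotropic vector is available.
-/

set_option autoImplicit false
set_option linter.unusedSectionVars false
set_option linter.unusedSimpArgs false

namespace Pool.Agent.X263.Od

variable {R : Type*} [Ring R] [StarRing R] {X : Type*} [AddCommGroup X] [Module R X]

theorem Frm.zsmul_left (F : Frm R X) (n : ℤ) (x y : X) : F.B (n • x) y = n • F.B x y := by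
  rw [← Int.cast_smul_eq_zsmul R n x, F.smul_left, zsmul_eq_mul]

theorem Frm.zsmul_right (F : Frm R X) (n : ℤ) (x y : X) : F.B x (n • y) = n • F.B x y := by
  rw [← F.symm, F.zsmul_left, star_zsmul, F.symm]

variable (F : Frm R X)

/-- the data of the vectors -/
structure Dat (p k e : X) (c m l : ℤ) : Prop where
  pp : F.B p p = 0
  pk : F.B p k = ((c * l : ℤ) : R)
  kk : F.B k k = ((-(2 * m * l) : ℤ) : R)
  pe : F.B p e = ((-(c * l) : ℤ) : R)
  ke : F.B k e = ((m * l : ℤ) : R)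
  ee : F.B e e = 0

variable {F}

theorem Dat.kp {p k e : X} {c m l : ℤ} (h : Dat F p k e c m l) :
    F.B k p = ((c * l : ℤ) : R) := by
  rw [← F.symm, h.pk, star_intCast]

theorem Dat.ep {p k e : X} {c m l : ℤ} (h : Dat F p k e c m l) :
    F.B e p = ((-(c * l) : ℤ) : R) := by
  rw [← F.symm, h.pe, star_intCast]

theorem Dat.ek {p k e : X} {c m l : ℤ} (h : Dat F p k e c m l) :
    F.B e k = ((m * l : ℤ) : R) := by
  rw [← F.symm, h.ke, star_intCast]

theorem ic0 {n : ℤ} (h : n = 0) : (n : R) = 0 := by rw [h, Int.cast_zero]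

theorem zc (n : ℤ) (a : R) : a * (n : R) = n • a := by
  rw [zsmul_eq_mul, Int.cast_comm]

theorem Dat.h1 {p k e : X} {c m l : ℤ} (h : Dat F p k e c m l) {β : R} (hβ : star β = -β) :
    Hp F p 0 (-β) := by
  refine ⟨h.pp, F.zero_left _, ?_⟩
  rw [F.zero_left, star_neg, hβ, neg_neg, neg_add_cancel]

theorem Dat.h2 {p k e : X} {c m l : ℤ} (h : Dat F p k e c m l) {D : R} (hD : star D = -D) :
    Hp F (k + e) 0 (-(c • D)) := by
  refine ⟨?_, F.zero_left _, ?_⟩
  · rw [F.add_left, F.add_right, F.add_right, h.kk, h.ke, h.ek, h.ee]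
    rw [add_zero, ← Int.cast_add, ← Int.cast_add]
    exact ic0 (by ring)
  · rw [F.zero_left, star_neg, star_zsmul, hD, smul_neg, neg_neg, neg_add_cancel]

theorem Dat.k'p {p k e : X} {c m l : ℤ} (h : Dat F p k e c m l) : F.B (k + e) p = 0 := by
  rw [F.add_left, h.kp, h.ep]
  push_cast
  simp

theorem Dat.h3 {p k e : X} {c m l : ℤ} (h : Dat F p k e c m l) {D : R} (hD : star D = -D) :
    Hp F p (-((m • D) • (k + e))) 0 := by
  refine ⟨h.pp, ?_, ?_⟩
  · rw [F.neg_left, F.smul_left, h.k'p, mul_zero, neg_zero]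
  · rw [F.neg_left, F.neg_right, F.smul_left, F.smul_right, (h.h2 hD).uu]
    simp

theorem Dat.h4 {p k e : X} {c m l : ℤ} (h : Dat F p k e c m l) {D : R} (hD : star D = -D) :
    Hp F e 0 (c • D) := by
  refine ⟨h.ee, F.zero_left _, ?_⟩
  rw [F.zero_left, star_zsmul, hD, smul_neg, add_neg_cancel]

theorem Dat.e5 {p k e : X} {c m l : ℤ} (h : Dat F p k e c m l) :
    F.B e (m • p + c • k) = 0 := by
  rw [F.add_right, F.zsmul_right, F.zsmul_right, h.ep, h.ek, ← Int.cast_smul_eq_zsmul R m,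
    ← Int.cast_smul_eq_zsmul R c, smul_eq_mul, smul_eq_mul, ← Int.cast_mul, ← Int.cast_mul,
    ← Int.cast_add]
  exact ic0 (by ring)

theorem Dat.uu5 {p k e : X} {c m l : ℤ} (h : Dat F p k e c m l) :
    F.B (m • p + c • k) (m • p + c • k) = 0 := by
  simp only [F.add_left, F.add_right, F.zsmul_right, F.zsmul_left, h.pp, h.pk, h.kp, h.kk,
    zsmul_eq_mul, ← Int.cast_mul, ← Int.cast_add, mul_zero, zero_add]
  exact ic0 (by ring)

theorem Dat.h5 {p k e : X} {c m l : ℤ} (h : Dat F p k e c m l) {D : R} (hD : star D = -D) :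
    Hp F (m • p + c • k) (D • e) 0 := by
  refine ⟨h.uu5, ?_, ?_⟩
  · rw [F.smul_left, h.e5, mul_zero]
  · rw [F.smul_left, F.smul_right, h.ee]
    simp

variable {p k e : X} {c m l : ℤ} (h : Dat F p k e c m l) {D β : R} (hD : star D = -D)
  (hβ : star β = -β)

include h hβ in
theorem s1 (x : X) : ps F (h.h1 hβ) x = x + (F.B x p * β) • p := by
  rw [ps_apply, F.zero_right]
  simp [sub_eq_add_neg]

include h hD in
theorem s2 (x : X) : ps F (h.h2 hD) x = x + ((F.B x k + F.B x e) * (c • D)) • (k + e) := by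
  rw [ps_apply, F.zero_right, F.add_right]
  simp only [zero_smul, smul_zero, add_zero, sub_zero, mul_neg, neg_smul, sub_neg_eq_add]

include h hD in
theorem s3 (x : X) : ps F (h.h3 hD) x = x + ((F.B x k + F.B x e) * (m • D)) • p +
    (F.B x p * (m • D)) • (k + e) := by
  rw [ps_apply, F.neg_right, F.smul_right, F.add_right, star_zsmul, hD]
  simp [sub_eq_add_neg, smul_smul]

include h hD in
theorem s4 (x : X) : ps F (h.h4 hD) x = x - (F.B x e * (c • D)) • e := by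
  rw [ps_apply, F.zero_right]
  simp [sub_eq_add_neg]

include h hD in
theorem s5 (x : X) : ps F (h.h5 hD) x = x - (F.B x e * D) • (m • p + c • k) -
    ((m • F.B x p + c • F.B x k) * D) • e := by
  rw [ps_apply, F.smul_right, F.add_right, F.zsmul_right, F.zsmul_right, hD]
  simp only [mul_neg, neg_smul, mul_zero, zero_smul, neg_zero, add_zero, smul_smul, sub_eq_add_neg]

include h hD hβ in
theorem prod_eq (T A G : R) (hT : T = -(m ^ 2) • D + c • β) (hA : A = β + (m * l) • (T * D))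
    (hG : G = m • D + (c * l) • (T * D)) (x : X) :
    (ps F (h.h5 hD) * ps F (h.h4 hD) * ps F (h.h3 hD) * ps F (h.h2 hD) * ps F (h.h1 hβ)) x =
      x + (F.B x p * A + F.B x k * (m • D)) • p + (F.B x p * G + F.B x k * (c • D)) • k := by
  rw [LinearEquiv.mul_apply, LinearEquiv.mul_apply, LinearEquiv.mul_apply, LinearEquiv.mul_apply]
  obtain ⟨P, hP⟩ : ∃ P, P = F.B x p := ⟨_, rfl⟩
  obtain ⟨K, hK⟩ : ∃ K, K = F.B x k := ⟨_, rfl⟩
  obtain ⟨E, hE⟩ : ∃ E, E = F.B x e := ⟨_, rfl⟩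
  -- first step
  obtain ⟨x1, hx1⟩ : ∃ y, y = ps F (h.h1 hβ) x := ⟨_, rfl⟩
  obtain ⟨a1, ha1⟩ : ∃ a, a = P * β := ⟨_, rfl⟩
  have e1 : x1 = x + a1 • p := by rw [hx1, s1 h hβ, ← hP, ha1]
  have P1 : F.B x1 p = P := by
    rw [e1, F.add_left, F.smul_left, h.pp, mul_zero, add_zero, hP]
  have K1 : F.B x1 k = K + (c * l) • a1 := by
    rw [e1, F.add_left, F.smul_left, h.pk, zc, hK]
  have E1 : F.B x1 e = E - (c * l) • a1 := by
    rw [e1, F.add_left, F.smul_left, h.pe, zc, hE, neg_smul, sub_eq_add_neg]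
  rw [← hx1]
  -- second step
  obtain ⟨x2, hx2⟩ : ∃ y, y = ps F (h.h2 hD) x1 := ⟨_, rfl⟩
  obtain ⟨a2, ha2⟩ : ∃ a, a = c • ((K + E) * D) := ⟨_, rfl⟩
  have e2 : x2 = x1 + a2 • (k + e) := by
    rw [hx2, s2 h hD, K1, E1, ha2, mul_smul_comm]
    congr 3
    abel_nf
  have P2 : F.B x2 p = P := by
    rw [e2, F.add_left, F.smul_left, h.k'p, mul_zero, add_zero, P1]
  have K2 : F.B x2 k = K + (c * l) • a1 - (m * l) • a2 := by
    rw [e2, F.add_left, F.smul_left, F.add_left, h.kk, h.ek, K1, ← Int.cast_add, zc]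
    module
  have E2 : F.B x2 e = E - (c * l) • a1 + (m * l) • a2 := by
    rw [e2, F.add_left, F.smul_left, F.add_left, h.ke, h.ee, E1, add_zero, zc]
  rw [← hx2]
  -- third step
  obtain ⟨x3, hx3⟩ : ∃ y, y = ps F (h.h3 hD) x2 := ⟨_, rfl⟩
  obtain ⟨a3, ha3⟩ : ∃ a, a = m • ((K + E) * D) := ⟨_, rfl⟩
  obtain ⟨a4, ha4⟩ : ∃ a, a = m • (P * D) := ⟨_, rfl⟩
  have e3 : x3 = x2 + a3 • p + a4 • (k + e) := by
    rw [hx3, s3 h hD, K2, E2, P2, ha3, ha4, mul_smul_comm, mul_smul_comm]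
    congr 4
    abel_nf
  have P3 : F.B x3 p = P := by
    rw [e3, F.add_left, F.smul_left, h.k'p, F.add_left, F.smul_left, h.pp, mul_zero, add_zero,
      mul_zero, add_zero, P2]
  have K3 : F.B x3 k = K + (c * l) • a1 - (m * l) • a2 + (c * l) • a3 - (m * l) • a4 := by
    rw [e3, F.add_left, F.smul_left, F.add_left, F.smul_left, F.add_left, h.kk, h.ek, K2,
      ← Int.cast_add, h.pk, zc, zc]
    module
  have E3 : F.B x3 e = E - (c * l) • a1 + (m * l) • a2 - (c * l) • a3 + (m * l) • a4 := by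
    rw [e3, F.add_left, F.smul_left, F.add_left, F.smul_left, F.add_left, h.ke, h.ee, E2,
      add_zero, h.pe, zc, zc]
    module
  rw [← hx3]
  -- fourth step
  obtain ⟨x4, hx4⟩ : ∃ y, y = ps F (h.h4 hD) x3 := ⟨_, rfl⟩
  obtain ⟨E3', hE3⟩ : ∃ a, a = F.B x3 e := ⟨_, rfl⟩
  obtain ⟨a5, ha5⟩ : ∃ a, a = c • (E3' * D) := ⟨_, rfl⟩
  have e4 : x4 = x3 - a5 • e := by
    rw [hx4, s4 h hD, ha5, hE3, mul_smul_comm]
  have P4 : F.B x4 p = P + (c * l) • a5 := by
    rw [e4, F.sub_left, F.smul_left, h.ep, P3, zc]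
    module
  have K4 : F.B x4 k = F.B x3 k - (m * l) • a5 := by
    rw [e4, F.sub_left, F.smul_left, h.ek, zc]
  have E4 : F.B x4 e = E3' := by
    rw [e4, F.sub_left, F.smul_left, h.ee, mul_zero, sub_zero, hE3]
  rw [← hx4, s5 h hD, E4]
  obtain ⟨a6, ha6⟩ : ∃ a, a = E3' * D := ⟨_, rfl⟩
  obtain ⟨a7, ha7⟩ : ∃ a, a = (m • F.B x4 p + c • F.B x4 k) * D := ⟨_, rfl⟩
  have hb1 : F.B x p * A + F.B x k * (m • D) = a1 + a3 - m • a6 := by
    rw [ha6, hE3, E3, ha1, ha2, ha3, ha4, hA, hT, ← hP, ← hK]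
    simp only [mul_add, add_mul, sub_mul, smul_mul_assoc, mul_smul_comm, smul_add, smul_sub,
      smul_smul, mul_assoc]
    module
  have hb2 : F.B x p * G + F.B x k * (c • D) = a2 + a4 - c • a6 := by
    rw [ha6, hE3, E3, ha1, ha2, ha3, ha4, hG, hT, ← hP, ← hK]
    simp only [mul_add, add_mul, sub_mul, smul_mul_assoc, mul_smul_comm, smul_add, smul_sub,
      smul_smul, mul_assoc]
    module
  have hb3 : a2 + a4 - a5 - a7 = 0 := by
    rw [ha7, P4, K4, K3, ha5, hE3, E3, ha1, ha2, ha3, ha4]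
    simp only [mul_add, add_mul, sub_mul, smul_mul_assoc, mul_smul_comm, smul_add, smul_sub,
      smul_smul, mul_assoc]
    module
  rw [hb1, hb2, ← ha6, ← ha7, e4, e3, e2, e1]
  have hb4 : a7 = a2 + a4 - a5 := (sub_eq_zero.1 hb3).symm
  rw [hb4]
  simp only [add_smul, sub_smul, smul_add, smul_sub, smul_comm _ m, smul_comm _ c, smul_assoc]
  abel

/-- an element orthogonal to the vectors -/
structure Dat.Or (F : Frm R X) (p k e y : X) : Prop where
  p : F.B y p = 0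
  k : F.B y k = 0
  e : F.B y e = 0

theorem Dat.Or.comb {y : X} (h : Dat.Or F p k e y) (a b d : ℤ) :
    F.B y (a • p + b • k + d • e) = 0 := by
  rw [F.add_right, F.add_right, F.zsmul_right, F.zsmul_right, F.zsmul_right, h.p, h.k, h.e]
  simp

include h hD hβ in
theorem ind_mem {e₁ f₁ e₂ f₂ : X} (h1 : Hyp F e₁ f₁) (h2 : Hyp F e₂ f₂)
    (o1 : Dat.Or F p k e e₁) (o1' : Dat.Or F p k e f₁) (o2 : Dat.Or F p k e e₂)
    (o2' : Dat.Or F p k e f₂) (h21 : F.B e₂ f₁ = 0) (h21' : F.B f₂ f₁ = 0)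
    (T A G : R) (hT : T = -(m ^ 2) • D + c • β) (hA : A = β + (m * l) • (T * D))
    (hG : G = m • D + (c * l) • (T * D)) (V : X ≃ₗ[R] X)
    (hV : ∀ x, V x = x + (F.B x p * A + F.B x k * (m • D)) • p +
      (F.B x p * G + F.B x k * (c • D)) • k) : V ∈ ⁅F.O, F.O⁆ := by
  have e0 : V = ps F (h.h5 hD) * ps F (h.h4 hD) * ps F (h.h3 hD) * ps F (h.h2 hD) *
      ps F (h.h1 hβ) := LinearEquiv.ext fun x => by
    rw [hV, prod_eq h hD hβ T A G hT hA hG]
  have q1 : ∀ {y : X}, Dat.Or F p k e y → F.B y (m • p + c • k) = 0 := fun hy => by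
    have := hy.comb m c 0
    rwa [zero_smul, add_zero] at this
  have q2 : ∀ {y : X}, Dat.Or F p k e y → F.B y (k + e) = 0 := fun hy => by
    rw [F.add_right, hy.k, hy.e, add_zero]
  have q3 : ∀ {y : X}, Dat.Or F p k e y → F.B y (D • e) = 0 := fun hy => by
    rw [F.smul_right, hy.e, zero_mul]
  have q4 : ∀ {y : X}, Dat.Or F p k e y → F.B y (-((m • D) • (k + e))) = 0 := fun hy => by
    rw [F.neg_right, F.smul_right, q2 hy, zero_mul, neg_zero]
  rw [e0]
  refine mul_mem (mul_mem (mul_mem (mul_mem ?_ ?_) ?_) ?_) ?_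
  · exact ps_mem_comm F _ h1 h2 (q1 o1) (q1 o1') (q3 o1) (q3 o1') (q1 o2) (q1 o2') h21 h21'
  · exact ps_mem_comm F _ h1 h2 o1.e o1'.e (F.zero_right _) (F.zero_right _) o2.e o2'.e h21 h21'
  · exact ps_mem_comm F _ h1 h2 o1.p o1'.p (q4 o1) (q4 o1') o2.p o2'.p h21 h21'
  · exact ps_mem_comm F _ h1 h2 (q2 o1) (q2 o1') (F.zero_right _) (F.zero_right _) (q2 o2)
      (q2 o2') h21 h21'
  · exact ps_mem_comm F _ h1 h2 o1.p o1'.p (F.zero_right _) (F.zero_right _) o2.p o2'.p h21 h21'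

end Pool.Agent.X263.Od
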