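import Pool.Agent.X263.Od.Ind

/-!
Isometries which differ from the identity by two rank one terms along integral isotropic vectors.
-/

set_option autoImplicit false
set_option linter.unusedSectionVars false
set_option linter.unusedSimpArgs false

namespace Pool.Agent.X263.Od

variable {R : Type*} [Ring R] [StarRing R] {X : Type*} [AddCommGroup X] [Module R X]

/-- an even unimodular lattice of constant vectors -/
structure Lat (F : Frm R X) (Λ : Type*) [AddCommGroup Λ] where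
  X0 : Submodule R X
  i : Λ →+ X
  mem : ∀ v, i v ∈ X0
  b : Λ → Λ → ℤ
  Bb : ∀ v w, F.B (i v) (i w) = (b v w : R)
  nd : ∀ x ∈ X0, (∀ v, F.B (i v) x = 0) → x = 0
  add : ∀ u v w, b (u + v) w = b u w + b v w
  sym : ∀ u v, b u v = b v u
  ev : ∀ v, Even (b v v)
  um : ∀ x (c : ℤ), (∀ w, c ∣ b x w) → ∃ y, x = c • y

variable {F : Frm R X} {Λ : Type*} [AddCommGroup Λ] (L : Lat F Λ)

namespace Lat

theorem zsmul (n : ℤ) (u w : Λ) : L.b (n • u) w = n * L.b u w := by
  have h : (AddMonoidHom.mk' (fun u => L.b u w) fun u v => L.add u v w) (n • u) =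
      n • (AddMonoidHom.mk' (fun u => L.b u w) fun u v => L.add u v w) u := map_zsmul _ _ _
  simpa using h

theorem add' (u v w : Λ) : L.b u (v + w) = L.b u v + L.b u w := by
  rw [L.sym, L.add, L.sym v, L.sym w]

theorem zsmul' (n : ℤ) (u w : Λ) : L.b u (n • w) = n * L.b u w := by
  rw [L.sym, L.zsmul, L.sym]

theorem sub (u v w : Λ) : L.b (u - v) w = L.b u w - L.b v w := by
  have h := L.zsmul (-1) v w
  rw [neg_smul, one_smul] at h
  rw [sub_eq_add_neg, L.add, h]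
  ring

theorem sub' (u v w : Λ) : L.b u (v - w) = L.b u v - L.b u w := by
  rw [L.sym, L.sub, L.sym v, L.sym w]

/-- the decomposition of a pair of isotropic vectors -/
theorem split {p k : Λ} (hp : L.b p p = 0) (hk : L.b k k = 0) (p' : Λ) (hp' : L.b p p' = 1)
    (k' : Λ) (hk' : L.b k k' = 1) :
    (∃ m : ℤ, k = m • p ∧ (m = 1 ∨ m = -1)) ∨
    ∃ (m c l : ℤ) (k₁ q : Λ), c ≠ 0 ∧ k = m • p + c • k₁ ∧ L.b p k₁ = c * l ∧
      L.b k₁ k₁ = -(2 * m * l) ∧ L.b p' k₁ = 0 ∧ L.b q p = 0 ∧ L.b q k₁ = 1 := by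
  obtain ⟨m, hm⟩ : ∃ m, m = L.b k p' := ⟨_, rfl⟩
  obtain ⟨r, hr⟩ : ∃ r, r = k - m • p := ⟨_, rfl⟩
  have hrp : L.b r p' = 0 := by rw [hr, L.sub, L.zsmul, hp', ← hm]; ring
  have hk0 : k = m • p + r := by rw [hr]; abel
  -- the content of `r`
  obtain ⟨c, hc⟩ : ∃ c : ℤ, (∀ w, c ∣ L.b r w) ∧ ∃ w, L.b r w = c := by
    let f : Λ →+ ℤ := AddMonoidHom.mk' (fun w => L.b r w) fun u v => L.add' r u v
    obtain ⟨c, hc⟩ := Int.subgroup_cyclic f.range
    rw [← AddSubgroup.zmultiples_eq_closure] at hc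
    have h1 : c ∈ f.range := by rw [hc]; exact AddSubgroup.mem_zmultiples c
    obtain ⟨w, hw⟩ := h1
    refine ⟨c, fun w => ?_, w, hw⟩
    have h2 : f w ∈ f.range := ⟨w, rfl⟩
    rw [hc, Int.mem_zmultiples_iff] at h2
    exact h2
  obtain ⟨hc1, w, hw⟩ := hc
  by_cases h0 : c = 0
  · left
    have h1 : r = 0 := by
      obtain ⟨y, hy⟩ := L.um r 0 fun v => by rw [← h0]; exact hc1 v
      rw [hy, zero_smul]
    rw [h1, add_zero] at hk0
    refine ⟨m, hk0, ?_⟩
    have h2 : m * L.b p k' = 1 := by rw [← L.zsmul, ← hk0, hk']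
    exact Int.isUnit_iff.1 (IsUnit.of_mul_eq_one _ h2)
  · right
    obtain ⟨k₁, hk₁⟩ := L.um r c hc1
    have e1 : L.b p' k₁ = 0 := by
      have : c * L.b k₁ p' = 0 := by rw [← L.zsmul, ← hk₁, hrp]
      rw [L.sym]
      exact (mul_eq_zero.1 this).resolve_left h0
    have e2 : L.b k₁ w = 1 := by
      have : c * L.b k₁ w = c * 1 := by rw [← L.zsmul, ← hk₁, hw, mul_one]
      exact mul_left_cancel₀ h0 this
    rw [hk₁] at hk0
    -- the Gram matrix
    obtain ⟨σ, hσ⟩ := L.ev k₁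
    have e3 : m * L.b p k₁ + c * σ = 0 := by
      have h3 : L.b (m • p + c • k₁) (m • p + c • k₁) = 0 := by rw [← hk0, hk]
      rw [L.add, L.add', L.add', L.zsmul, L.zsmul, L.zsmul, L.zsmul, L.zsmul', L.zsmul', L.zsmul',
        L.zsmul', hp, L.sym k₁ p, hσ] at h3
      have h4 : (2 * c) * (m * L.b p k₁ + c * σ) = 0 := by linear_combination h3
      exact (mul_eq_zero.1 h4).resolve_left (by omega)
    have e4 : IsCoprime m c := by
      refine ⟨L.b p k', L.b k₁ k', ?_⟩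
      rw [hk0, L.add, L.zsmul, L.zsmul] at hk'
      linear_combination hk'
    have e5 : c ∣ L.b p k₁ := by
      refine e4.symm.dvd_of_dvd_mul_left ⟨-σ, ?_⟩
      linear_combination e3
    obtain ⟨l, hl⟩ := e5
    have e6 : σ = -(m * l) := by
      rw [hl] at e3
      have : c * (m * l + σ) = 0 := by linear_combination e3
      have := (mul_eq_zero.1 this).resolve_left h0
      linear_combination this
    refine ⟨m, c, l, k₁, w - L.b w p • p', h0, hk0, hl, ?_, e1, ?_, ?_⟩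
    · rw [hσ, e6]; ring
    · rw [L.sub, L.zsmul, L.sym p' p, hp']; ring
    · rw [L.sub, L.zsmul, e1, L.sym, e2]; ring

theorem B0 {v w : Λ} (h : L.b v w = 0) : F.B (L.i v) (L.i w) = 0 := by
  rw [L.Bb, h, Int.cast_zero]

theorem B1 {v w : Λ} (h : L.b v w = 1) : F.B (L.i v) (L.i w) = 1 := by
  rw [L.Bb, h, Int.cast_one]

section

variable {p k₁ p' q : Λ} (h1 : L.b p p' = 1) (h2 : L.b p' k₁ = 0) (h3 : L.b q p = 0)
  (h4 : L.b q k₁ = 1)

include h1 h2 h3 h4 in
theorem span2 {z : X} (hz : z ∈ L.X0)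
    (h0 : ∀ v, L.b v p = 0 → L.b v k₁ = 0 → F.B (L.i v) z = 0) :
    z = F.B z (L.i p') • L.i p + F.B z (L.i q) • L.i k₁ := by
  rw [← sub_eq_zero]
  have e1 : F.B (L.i p') (z - (F.B z (L.i p') • L.i p + F.B z (L.i q) • L.i k₁)) = 0 := by
    rw [F.sub_right, F.add_right, F.smul_right, F.smul_right, F.symm,
      L.B1 (by rw [L.sym]; exact h1), L.B0 h2]
    simp
  have e2 : F.B (L.i q) (z - (F.B z (L.i p') • L.i p + F.B z (L.i q) • L.i k₁)) = 0 := by
    rw [F.sub_right, F.add_right, F.smul_right, F.smul_right, F.symm, L.B0 h3, L.B1 h4, F.symm]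
    simp
  refine L.nd _ (L.X0.sub_mem hz (L.X0.add_mem (L.X0.smul_mem _ (L.mem _))
    (L.X0.smul_mem _ (L.mem _)))) fun v => ?_
  obtain ⟨v₀, hv₀⟩ : ∃ v₀, v₀ = v - L.b v p • p' - L.b v k₁ • q := ⟨_, rfl⟩
  have a1 : L.b v₀ p = 0 := by
    rw [hv₀, L.sub, L.sub, L.zsmul, L.zsmul, L.sym p' p, h1, h3]; ring
  have a2 : L.b v₀ k₁ = 0 := by
    rw [hv₀, L.sub, L.sub, L.zsmul, L.zsmul, h2, h4]; ring
  have e3 : F.B (L.i v₀) (z - (F.B z (L.i p') • L.i p + F.B z (L.i q) • L.i k₁)) = 0 := by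
    rw [F.sub_right, F.add_right, F.smul_right, F.smul_right, h0 _ a1 a2, L.B0 a1, L.B0 a2]
    simp
  have e4 : L.i v = L.i v₀ + L.b v p • L.i p' + L.b v k₁ • L.i q := by
    rw [← map_zsmul, ← map_zsmul, ← map_add, ← map_add, hv₀]
    congr 1
    abel
  rw [e4, F.add_left, F.add_left, F.zsmul_left, F.zsmul_left, e1, e2, e3]
  simp

end

theorem indep (hR : ∀ (n : ℤ) (a : R), n ≠ 0 → n • a = 0 → a = 0) {p k k₁ p' q : Λ}
    {m c l : ℤ} (hc : c ≠ 0) (hk : k = m • p + c • k₁) (hl : L.b p k₁ = c * l)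
    (hkk : L.b k₁ k₁ = -(2 * m * l)) (h0 : L.b p p = 0) (h1 : L.b p p' = 1)
    (h2 : L.b p' k₁ = 0) (h3 : L.b q p = 0) (h4 : L.b q k₁ = 1)
    (V : X ≃ₗ[R] X) (hVO : V ∈ F.O) {ω κ : X} (hω : ω ∈ L.X0) (hκ : κ ∈ L.X0)
    (hV : ∀ x, V x = x + F.B x (L.i p) • ω + F.B x κ • L.i k) :
    ∃ D β T A G : R, star D = -D ∧ star β = -β ∧ T = -(m ^ 2) • D + c • β ∧
      A = β + (m * l) • (T * D) ∧ G = m • D + (c * l) • (T * D) ∧
      ∀ x, V x = x + (F.B x (L.i p) * A + F.B x (L.i k₁) * (m • D)) • L.i p +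
        (F.B x (L.i p) * G + F.B x (L.i k₁) * (c • D)) • L.i k₁ := by
  have ik : L.i k = m • L.i p + c • L.i k₁ := by
    rw [hk, map_add, map_zsmul, map_zsmul]
  have g1 : F.B (L.i p) (L.i p) = 0 := L.B0 h0
  have g2 : F.B (L.i p') (L.i p) = 1 := L.B1 (by rw [L.sym]; exact h1)
  have g3 : F.B (L.i p') (L.i k₁) = 0 := L.B0 h2
  have g4 : F.B (L.i q) (L.i p) = 0 := L.B0 h3
  have g5 : F.B (L.i q) (L.i k₁) = 1 := L.B1 h4
  have g6 : F.B (L.i p) (L.i k₁) = ((c * l : ℤ) : R) := by rw [L.Bb, hl]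
  have g7 : F.B (L.i k₁) (L.i p) = ((c * l : ℤ) : R) := by rw [L.Bb, L.sym, hl]
  have g8 : F.B (L.i k₁) (L.i k₁) = ((-(2 * m * l) : ℤ) : R) := by rw [L.Bb, hkk]
  have g9 : F.B (L.i k₁) (L.i q) = 1 := L.B1 (by rw [L.sym]; exact h4)
  have g10 : F.B (L.i p) (L.i q) = 0 := L.B0 (by rw [L.sym]; exact h3)
  have gk : ∀ v, L.b v p = 0 → L.b v k₁ = 0 → L.b v k = 0 := fun v a b => by
    rw [hk, L.add', L.zsmul', L.zsmul', a, b]; ring
  have gkq : F.B (L.i k) (L.i q) = (c : R) := by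
    rw [ik, F.add_left, F.zsmul_left, F.zsmul_left, g9, g10]; simp
  -- `κ` and `ω` are orthogonal to everything which is orthogonal to `p` and `k₁`
  have hκ0 : ∀ v, L.b v p = 0 → L.b v k₁ = 0 → F.B (L.i v) κ = 0 := by
    intro v a b
    have e := hVO (L.i v) (L.i q)
    rw [hV, hV, L.B0 a, g4, zero_smul, add_zero, add_zero, F.add_left, F.add_right,
      F.add_right, F.smul_left, F.smul_right, F.smul_left, F.smul_right, gkq, L.B0 (gk v a b),
      L.B0 (show L.b k k = 0 by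
        rw [hk, L.add, L.add', L.add', L.zsmul, L.zsmul, L.zsmul, L.zsmul, L.zsmul', L.zsmul',
          L.zsmul', L.zsmul', h0, L.sym k₁ p, hkk, hl]; ring)] at e
    simp only [zero_mul, mul_zero, add_zero] at e
    rw [add_eq_left, zc] at e
    exact hR c _ hc e
  have hω0 : ∀ v, L.b v p = 0 → L.b v k₁ = 0 → F.B (L.i v) ω = 0 := by
    intro v a b
    have e := hVO (L.i v) (L.i p')
    rw [hV, hV, L.B0 a, g2, hκ0 v a b, zero_smul, zero_smul, add_zero, add_zero, F.add_right,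
      F.add_right, F.smul_right, F.smul_right, L.B0 (gk v a b)] at e
    simp only [zero_mul, mul_zero, add_zero, star_one, mul_one] at e
    rw [add_eq_left] at e
    exact e
  have sω := L.span2 h1 h2 h3 h4 hω hω0
  have sκ := L.span2 h1 h2 h3 h4 hκ hκ0
  obtain ⟨ω₁, hω₁⟩ : ∃ t, t = F.B ω (L.i p') := ⟨_, rfl⟩
  obtain ⟨ω₂, hω₂⟩ : ∃ t, t = F.B ω (L.i q) := ⟨_, rfl⟩
  obtain ⟨κ₁, hκ₁⟩ : ∃ t, t = F.B κ (L.i p') := ⟨_, rfl⟩
  obtain ⟨κ₂, hκ₂⟩ : ∃ t, t = F.B κ (L.i q) := ⟨_, rfl⟩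
  rw [← hω₁, ← hω₂] at sω
  rw [← hκ₁, ← hκ₂] at sκ
  obtain ⟨A, hA⟩ : ∃ t, t = ω₁ + m • star κ₁ := ⟨_, rfl⟩
  obtain ⟨G, hG⟩ : ∃ t, t = ω₂ + c • star κ₁ := ⟨_, rfl⟩
  obtain ⟨D, hD⟩ : ∃ t, t = star κ₂ := ⟨_, rfl⟩
  have hV' : ∀ x, V x = x + (F.B x (L.i p) * A + F.B x (L.i k₁) * (m • D)) • L.i p +
        (F.B x (L.i p) * G + F.B x (L.i k₁) * (c • D)) • L.i k₁ := by
    intro x
    rw [hV, ik, sω, sκ, F.add_right, F.smul_right, F.smul_right, hA, hG, hD]
    simp only [smul_add, add_smul, smul_smul, mul_add, mul_smul_comm, smul_assoc,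
      smul_comm _ m, smul_comm _ c]
    abel
  -- the relations
  have vP : V (L.i p') = L.i p' + A • L.i p + G • L.i k₁ := by
    rw [hV', g2, g3]; simp
  have vQ : V (L.i q) = L.i q + (m • D) • L.i p + (c • D) • L.i k₁ := by
    rw [hV', g4, g5]; simp
  have r1 := hVO (L.i q) (L.i q)
  have r2 := hVO (L.i p') (L.i q)
  have r3 := hVO (L.i p') (L.i p')
  have g11 : F.B (L.i p) (L.i p') = 1 := L.B1 h1
  have g12 : F.B (L.i k₁) (L.i p') = 0 := L.B0 (by rw [L.sym]; exact h2)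
  rw [vQ] at r1
  rw [vP, vQ] at r2
  rw [vP] at r3
  simp only [F.add_left, F.add_right, F.smul_left, F.smul_right, g1, g2, g3, g4, g5, g6, g7, g8,
    g9, g10, g11, g12, mul_zero, zero_mul, add_zero, zero_add, mul_one, one_mul, star_zsmul,
    zc] at r1 r2 r3
  have cz : ∀ (n : ℤ) (a : R), (n : R) * a = n • a := fun n a => (zsmul_eq_mul a n).symm
  have q1 : c • (D + star D) = 0 := by
    refine Eq.trans ?_ (sub_eq_zero.2 r1)
    simp only [cz, smul_mul_assoc, mul_smul_comm, smul_smul, smul_add, mul_assoc]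
    module
  have hDs : star D = -D := by
    have := hR c _ hc q1
    exact (neg_eq_of_add_eq_zero_right this).symm
  obtain ⟨T, hT⟩ : ∃ T, T = c • A - m • G := ⟨_, rfl⟩
  have hGe : G = m • D + (c * l) • (T * D) := by
    have e := sub_eq_zero.2 r2
    rw [hDs] at e
    have e' : G - (m • D + (c * l) • (T * D)) = 0 := by
      refine Eq.trans ?_ e
      rw [hT]
      simp only [cz, smul_mul_assoc, mul_smul_comm, smul_smul, smul_add, mul_assoc, sub_mul,
        smul_sub, mul_neg, smul_neg]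
      module
    exact sub_eq_zero.1 e'
  have hsG : star G = -(m • D) - (c * l) • (D * star T) := by
    rw [hGe, star_add, star_zsmul, star_zsmul, star_mul, hDs]
    simp only [smul_neg, neg_mul]
    module
  have hcA : c • A = T + m • G := by rw [hT]; abel
  have hcA' : c • star A = star T + m • star G := by
    rw [← star_zsmul, hcA, star_add, star_zsmul]
  have q3 : c • (T + star T) = 0 := by
    have e : c • (c • A + c • star A) + (l * c ^ 2) • ((c • A) * star G) +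
        (l * c ^ 2) • (G * (c • star A)) - (2 * m * l * c ^ 2) • (G * star G) = 0 := by
      refine Eq.trans ?_ ((congrArg (fun t => (c ^ 2) • t) (sub_eq_zero.2 r3)).trans (smul_zero _))
      simp only [cz, smul_mul_assoc, mul_smul_comm, smul_smul, smul_add, smul_sub]
      module
    rw [hcA, hcA', hsG, hGe] at e
    refine Eq.trans ?_ e
    simp only [smul_mul_assoc, mul_smul_comm, smul_smul, smul_add, smul_sub, mul_assoc, add_mul,
      mul_add, sub_mul, mul_sub, mul_neg, neg_mul, smul_neg, neg_neg]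
    module
  have hTs : star T = -T := by
    have := hR c _ hc q3
    exact (neg_eq_of_add_eq_zero_right this).symm
  obtain ⟨β, hβ⟩ : ∃ β, β = A - (m * l) • (T * D) := ⟨_, rfl⟩
  have hTe : T = -(m ^ 2) • D + c • β := by
    rw [hβ, smul_sub, hcA]
    conv_rhs => rw [hGe]
    module
  have hβs : star β = -β := by
    have e : c • (β + star β) = 0 := by
      have e1 : c • β = T + m ^ 2 • D := by
        conv_rhs => rw [hTe]
        module
      have e2 : c • star β = star T + m ^ 2 • star D := by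
        rw [← star_zsmul, e1, star_add, star_zsmul]
      rw [smul_add, e1, e2, hTs, hDs]
      module
    have := hR c _ hc e
    exact (neg_eq_of_add_eq_zero_right this).symm
  exact ⟨D, β, T, A, G, hDs, hβs, hTe, by rw [hβ]; abel, hGe, hV'⟩

end Lat

end Pool.Agent.X263.Od
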