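import Pool.Agent.X263.Od.Dep

/-!
Isometries which differ from the identity by two rank one terms along integral isotropic vectors,
modulo commutators.
-/

set_option autoImplicit false
set_option linter.unusedSectionVars false
set_option linter.unusedSimpArgs false

namespace Pool.Agent.X263.Od

variable {R : Type*} [Ring R] [StarRing R] {X : Type*} [AddCommGroup X] [Module R X]
variable {F : Frm R X} {Λ : Type*} [AddCommGroup Λ] (L : Lat F Λ)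

/-- hyperbolic pairs orthogonal to the lattice -/
structure Lat.Pr (e f : X) : Prop where
  h : Hyp F e f
  e : ∀ x ∈ L.X0, F.B e x = 0
  f : ∀ x ∈ L.X0, F.B f x = 0

/-- orthogonal pairs -/
structure Opr (F : Frm R X) (e f e' f' : X) : Prop where
  ee : F.B e e' = 0
  ef : F.B e f' = 0
  fe : F.B f e' = 0
  ff : F.B f f' = 0

namespace Lat

theorem dep {p p' : Λ} (h0 : L.b p p = 0) (h1 : L.b p p' = 1) (V : X ≃ₗ[R] X) (hVO : V ∈ F.O)
    {ω κ : X} (hω : ω ∈ L.X0)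
    (hV : ∀ x, V x = x + F.B x (L.i p) • ω + F.B x κ • L.i p)
    {e₁ f₁ e₂ f₂ : X} (a1 : L.Pr e₁ f₁) (a2 : L.Pr e₂ f₂) (o : Opr F e₂ f₂ e₁ f₁) :
    ∃ η : Rˣ, (η : R) = 1 + F.B (L.i p) κ ∧ (hs a1.h η)⁻¹ * V ∈ ⁅F.O, F.O⁆ := by
  -- an isotropic partner
  obtain ⟨σ, hσ⟩ := L.ev p'
  obtain ⟨q, hq⟩ : ∃ q, q = p' - σ • p := ⟨_, rfl⟩
  have q1 : L.b p q = 1 := by rw [hq, L.sub', L.zsmul', h0, h1]; ring
  have q2 : L.b q q = 0 := by
    rw [hq, L.sub, L.sub', L.sub', L.zsmul, L.zsmul, L.zsmul', L.zsmul', h0, L.sym p' p, h1, hσ]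
    ring
  have H : Hyp F (L.i p) (L.i q) := ⟨L.B0 h0, L.B0 q2, L.B1 q1⟩
  have mp := L.mem p
  have mq := L.mem q
  obtain ⟨P, hP⟩ : ∃ P, P = L.i p := ⟨_, rfl⟩
  obtain ⟨Q, hQ⟩ : ∃ Q, Q = L.i q := ⟨_, rfl⟩
  rw [← hP, ← hQ] at H
  rw [← hP] at hV mp ⊢
  rw [← hQ] at mq
  obtain ⟨a, ha⟩ : ∃ a, a = 1 + F.B P κ := ⟨_, rfl⟩
  have vP : V P = a • P := by
    rw [hV, H.ee, zero_smul, add_zero, ha, add_smul, one_smul]
  have vQ : V Q = Q + ω + F.B Q κ • P := by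
    rw [hV, H.fe, one_smul]
  have u1 : a * (1 + F.B P ω) = 1 := by
    have := hVO P Q
    rw [vP, vQ, F.smul_left, F.add_right, F.add_right, F.smul_right, H.ef, H.ee, zero_mul,
      add_zero] at this
    exact this
  obtain ⟨z, hz⟩ : ∃ z, V z = P := ⟨V.symm P, V.apply_symm_apply P⟩
  have u2 : (1 - F.B z κ) * a = 1 := by
    have e1 : F.B z P = 0 := by
      rw [← hVO z P, hz, vP, F.smul_right, H.ee, zero_mul]
    have e2 : P = z + F.B z κ • P := by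
      conv_lhs => rw [← hz, hV, e1, zero_smul, add_zero]
    have e3 : z = (1 - F.B z κ) • P := by
      rw [sub_smul, one_smul]
      exact eq_sub_of_add_eq e2.symm
    have e4 : P = ((1 - F.B z κ) * a) • P := by
      conv_lhs => rw [← hz, e3, map_smul, vP, smul_smul]
    have e5 : F.B P Q = F.B (((1 - F.B z κ) * a) • P) Q := congrArg (fun t => F.B t Q) e4
    rw [F.smul_left, H.ef, mul_one] at e5
    exact e5.symm
  have u3 : (1 + F.B P ω) * a = 1 := by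
    have : 1 - F.B z κ = 1 + F.B P ω := left_inv_eq_right_inv u2 u1
    rw [← this, u2]
  let η : Rˣ := ⟨a, 1 + F.B P ω, u1, u3⟩
  refine ⟨η, ha, ?_⟩
  obtain ⟨W, hW⟩ : ∃ W, W = (hs H η)⁻¹ * V := ⟨_, rfl⟩
  have hWO : W ∈ F.O := by rw [hW]; exact mul_mem (inv_mem (hs_mem H η)) hVO
  have hsa : ∀ x, (hs H η)⁻¹ x = x + (F.B x Q * ((1 + F.B P ω) - 1)) • P +
      (F.B x P * (star a - 1)) • Q := fun x => by
    rw [hs_inv, hs_apply, inv_inv]; rfl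
  have w1 : W P = P := by
    rw [hW, LinearEquiv.mul_apply, vP, map_smul, hsa, H.ef, H.ee, zero_mul, zero_smul, add_zero,
      one_mul]
    have : P + (1 + F.B P ω - 1) • P = (1 + F.B P ω) • P := by
      rw [sub_smul, one_smul]; abel
    rw [this, smul_smul, u1, one_smul]
  have w2 : ∀ x, F.B x P = 0 → ∃ t : R, W x = x + t • P := by
    intro x hx
    refine ⟨F.B x Q * (1 + F.B P ω - 1) + F.B x κ * (1 + F.B P ω), ?_⟩
    rw [hW, LinearEquiv.mul_apply, hV, hx, zero_smul, add_zero, map_add, map_smul, hsa, hsa, hx,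
      H.ef, H.ee, zero_mul, zero_smul, add_zero, add_zero, one_mul]
    have : P + (1 + F.B P ω - 1) • P = (1 + F.B P ω) • P := by
      rw [sub_smul, one_smul]; abel
    rw [this, smul_smul, add_smul]
    abel
  obtain ⟨y, r, hp, e1, e2⟩ := rigid H hWO w1 w2
  have hy : y ∈ L.X0 := by
    have e3 : y = Q - W Q - r • P := by rw [e2]; abel
    have e4 : W Q ∈ L.X0 := by
      rw [hW, LinearEquiv.mul_apply, vQ, hsa]
      exact L.X0.add_mem (L.X0.add_mem (L.X0.add_mem (L.X0.add_mem mq hω)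
        (L.X0.smul_mem _ mp)) (L.X0.smul_mem _ mp)) (L.X0.smul_mem _ mq)
    rw [e3]
    exact L.X0.sub_mem (L.X0.sub_mem mq e4) (L.X0.smul_mem _ mp)
  have hWK : W ∈ ⁅F.O, F.O⁆ := by
    rw [e1]
    exact ps_mem_comm F hp a1.h a2.h (a1.e _ mp) (a1.f _ mp) (a1.e _ hy) (a1.f _ hy)
      (a2.e _ mp) (a2.f _ mp) o.ef o.ff
  have e3 : (hs a1.h η)⁻¹ * V = ((hs a1.h η)⁻¹ * hs H η) * W := by
    rw [hW]; group
  rw [e3]
  exact mul_mem (hs_mod H a1.h (F.swap0 (a1.e _ mp)) (F.swap0 (a1.f _ mp))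
    (F.swap0 (a1.e _ mq)) (F.swap0 (a1.f _ mq)) η) hWK

theorem main (hR : ∀ (n : ℤ) (a : R), n ≠ 0 → n • a = 0 → a = 0) {p k p' k' : Λ}
    (hp : L.b p p = 0) (hk : L.b k k = 0) (hp' : L.b p p' = 1) (hk' : L.b k k' = 1)
    (V : X ≃ₗ[R] X) (hVO : V ∈ F.O) {ω κ : X} (hω : ω ∈ L.X0) (hκ : κ ∈ L.X0)
    (hV : ∀ x, V x = x + F.B x (L.i p) • ω + F.B x κ • L.i k)
    {e₁ f₁ e₂ f₂ e₃ f₃ : X} (a1 : L.Pr e₁ f₁) (a2 : L.Pr e₂ f₂) (a3 : L.Pr e₃ f₃)
    (o12 : Opr F e₂ f₂ e₁ f₁) (o13 : Opr F e₁ f₁ e₃ f₃) (o23 : Opr F e₂ f₂ e₃ f₃) :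
    ∃ η : Rˣ, (∀ ε : R →+* ℤ, (∀ v, ε (F.B (L.i v) κ) = 0) → ε η = 1) ∧
      (hs a1.h η)⁻¹ * V ∈ ⁅F.O, F.O⁆ := by
  rcases L.split hp hk p' hp' k' hk' with ⟨m, h1, -⟩ |
    ⟨m, c, l, k₁, q, hc, h1, h2, h3, h4, h5, h6⟩
  · have hV' : ∀ x, V x = x + F.B x (L.i p) • ω + F.B x (m • κ) • L.i p := fun x => by
      rw [hV, h1, map_zsmul, F.zsmul_right, smul_comm, smul_assoc]
    obtain ⟨η, h7, h8⟩ := L.dep hp hp' V hVO hω hV' a1 a2 o12
    refine ⟨η, fun ε hε => ?_, h8⟩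
    rw [h7, map_add, map_one, F.zsmul_right, map_zsmul, hε]
    simp
  · obtain ⟨D, β, T, A, G, r1, r2, r3, r4, r5, r6⟩ :=
      L.indep hR hc h1 h2 h3 hp hp' h4 h5 h6 V hVO hω hκ hV
    refine ⟨1, fun ε _ => by rw [Units.val_one, map_one], ?_⟩
    have e1 : hs a1.h (1 : Rˣ) = 1 := by
      refine LinearEquiv.ext fun x => ?_
      rw [hs_apply, inv_one, Units.val_one, star_one, sub_self, mul_zero, mul_zero, zero_smul,
        zero_smul, add_zero, add_zero]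
      rfl
    rw [e1, inv_one, one_mul]
    obtain ⟨w, hw⟩ : ∃ w, w = -(c * l) • p' + (m * l) • q := ⟨_, rfl⟩
    obtain ⟨σ, hσ⟩ := L.ev w
    obtain ⟨e, he⟩ : ∃ e, e = L.i w + e₃ - σ • f₃ := ⟨_, rfl⟩
    have w1 : L.b p w = -(c * l) := by
      rw [hw, L.add', L.zsmul', L.zsmul', hp', L.sym p q, h5]; ring
    have w2 : L.b k₁ w = m * l := by
      rw [hw, L.add', L.zsmul', L.zsmul', L.sym k₁ p', h4, L.sym k₁ q, h6]; ring
    have b1 : ∀ x ∈ L.X0, F.B x e = F.B x (L.i w) := fun x hx => by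
      rw [he, F.sub_right, F.add_right, F.zsmul_right, F.swap0 (a3.e x hx), F.swap0 (a3.f x hx)]
      simp
    have dat : Dat F (L.i p) (L.i k₁) e c m l := by
      refine ⟨L.B0 hp, by rw [L.Bb, h2], by rw [L.Bb, h3], ?_, ?_, ?_⟩
      · rw [b1 _ (L.mem _), L.Bb, w1]
      · rw [b1 _ (L.mem _), L.Bb, w2]
      · rw [he]
        simp only [F.add_left, F.sub_left, F.zsmul_left, F.add_right, F.sub_right, F.zsmul_right,
          a3.h.ee, a3.h.ff, a3.h.ef, a3.h.fe, a3.e _ (L.mem w), a3.f _ (L.mem w),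
          F.swap0 (a3.e _ (L.mem w)), F.swap0 (a3.f _ (L.mem w)), L.Bb, hσ, Int.cast_add]
        simp
    have ort : ∀ {y z : X}, (∀ x ∈ L.X0, F.B y x = 0) → F.B y e₃ = 0 → F.B y f₃ = 0 →
        Dat.Or F (L.i p) (L.i k₁) e y := fun {y z} t1 t2 t3 => by
      refine ⟨t1 _ (L.mem _), t1 _ (L.mem _), ?_⟩
      rw [he, F.sub_right, F.add_right, F.zsmul_right, t1 _ (L.mem _), t2, t3]
      simp
    exact ind_mem dat r1 r2 a1.h a2.h (ort (z := 0) a1.e o13.ee o13.ef)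
      (ort (z := 0) a1.f o13.fe o13.ff) (ort (z := 0) a2.e o23.ee o23.ef)
      (ort (z := 0) a2.f o23.fe o23.ff) o12.ef o12.ff T A G r3 r4 r5 V r6

end Lat

end Pool.Agent.X263.Od
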