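import Pool.Agent.X263.Od.Main

/-!
Isometries as matrices acting on row vectors.
-/

set_option autoImplicit false
set_option linter.unusedSectionVars false
set_option linter.unusedSimpArgs false

namespace Pool.Agent.X263.Od

open Matrix

variable {R : Type*} [Ring R] [StarRing R] {n : Type*} [Fintype n] [DecidableEq n]

/-- the form of a hermitian matrix -/
def mfrm (G : Matrix n n R) (hG : Gᴴ = G) : Frm R (n → R) where
  B x z := (x ᵥ* G) ⬝ᵥ star z
  add_left x y z := by rw [add_vecMul, add_dotProduct]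
  smul_left a x y := by rw [smul_vecMul, smul_dotProduct, smul_eq_mul]
  symm x y := by
    have e : ∀ a b : n → R, star (a ⬝ᵥ star b) = b ⬝ᵥ star a := fun a b => by
      simp [dotProduct, star_sum]
    rw [e, star_vecMul, hG, dotProduct_mulVec]

theorem mfrm_B (G : Matrix n n R) (hG : Gᴴ = G) (x z : n → R) :
    (mfrm G hG).B x z = (x ᵥ* G) ⬝ᵥ star z := rfl

/-- the action on row vectors -/
def mv (M : (Matrix n n R)ˣ) : (n → R) ≃ₗ[R] (n → R) :=
  LinearEquiv.ofLinearMap (toLinearMapRight' M.val) (toLinearMapRight' (M⁻¹).val)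
    (by rw [← toLinearMapRight'_mul, Units.inv_mul, toLinearMapRight'_one])
    (by rw [← toLinearMapRight'_mul, Units.mul_inv, toLinearMapRight'_one])

theorem mv_apply (M : (Matrix n n R)ˣ) (x : n → R) : mv M x = x ᵥ* M.val := rfl

theorem mv_mul (A B : (Matrix n n R)ˣ) : mv (A * B) = mv B * mv A :=
  LinearEquiv.ext fun x => by
    rw [LinearEquiv.mul_apply, mv_apply, mv_apply, mv_apply, vecMul_vecMul, Units.val_mul]

theorem mv_inj {A B : (Matrix n n R)ˣ} (h : mv A = mv B) : A = B := by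
  have h1 : toLinearMapRight' A.val = toLinearMapRight' B.val := by
    refine LinearMap.ext fun x => ?_
    exact congrArg (fun f : (n → R) ≃ₗ[R] (n → R) => f x) h
  exact Units.ext (toLinearMapRight'.injective h1)

theorem mv_surj (φ : (n → R) ≃ₗ[R] (n → R)) : ∃ M, mv M = φ := by
  obtain ⟨A, hA⟩ := toLinearMapRight'.surjective (φ : (n → R) →ₗ[R] (n → R))
  obtain ⟨B, hB⟩ := toLinearMapRight'.surjective (φ.symm : (n → R) →ₗ[R] (n → R))
  have h1 : A * B = 1 := by
    refine toLinearMapRight'.injective ?_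
    rw [toLinearMapRight'_mul, hA, hB, toLinearMapRight'_one]
    exact LinearMap.ext fun x => φ.symm_apply_apply x
  have h2 : B * A = 1 := by
    refine toLinearMapRight'.injective ?_
    rw [toLinearMapRight'_mul, hA, hB, toLinearMapRight'_one]
    exact LinearMap.ext fun x => φ.apply_symm_apply x
  refine ⟨⟨A, B, h1, h2⟩, LinearEquiv.ext fun x => ?_⟩
  change toLinearMapRight' A x = φ x
  rw [hA]
  rfl

/-- the matrices of the isometries -/
def OM (G : Matrix n n R) : Subgroup (Matrix n n R)ˣ where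
  carrier := {M | M.val * G * M.valᴴ = G}
  mul_mem' := fun {A B} hA hB => by
    have e : (A * B).val * G * (A * B).valᴴ = A.val * (B.val * G * B.valᴴ) * A.valᴴ := by
      rw [Units.val_mul, conjTranspose_mul]
      simp only [Matrix.mul_assoc]
    change (A * B).val * G * (A * B).valᴴ = G
    rw [e, hB, hA]
  one_mem' := by simp
  inv_mem' := fun {A} hA => by
    change (A⁻¹).val * G * (A⁻¹).valᴴ = G
    have e1 : (A⁻¹).val * A.val = 1 := Units.inv_mul A
    have e2 : A.valᴴ * (A⁻¹).valᴴ = 1 := by rw [← conjTranspose_mul, e1, conjTranspose_one]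
    calc (A⁻¹).val * G * (A⁻¹).valᴴ = (A⁻¹).val * (A.val * G * A.valᴴ) * (A⁻¹).valᴴ := by
          rw [show A.val * G * A.valᴴ = G from hA]
      _ = ((A⁻¹).val * A.val) * G * (A.valᴴ * (A⁻¹).valᴴ) := by simp only [Matrix.mul_assoc]
      _ = G := by rw [e1, e2, Matrix.one_mul, Matrix.mul_one]

theorem mem_OM {G : Matrix n n R} {M : (Matrix n n R)ˣ} : M ∈ OM G ↔ M.val * G * M.valᴴ = G :=
  Iff.rfl

theorem B_vecMul (G : Matrix n n R) (hG : Gᴴ = G) (M : Matrix n n R) (x z : n → R) :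
    (mfrm G hG).B (x ᵥ* M) (z ᵥ* M) = (x ᵥ* (M * G * Mᴴ)) ⬝ᵥ star z := by
  rw [mfrm_B, star_vecMul, dotProduct_mulVec, vecMul_vecMul, vecMul_vecMul, Matrix.mul_assoc]

theorem mem_OM_iff {G : Matrix n n R} (hG : Gᴴ = G) {M : (Matrix n n R)ˣ} :
    M ∈ OM G ↔ mv M ∈ (mfrm G hG).O := by
  constructor
  · intro h x z
    rw [mv_apply, mv_apply, B_vecMul, mem_OM.1 h, mfrm_B]
  · intro h
    rw [mem_OM]
    ext i j
    have h1 := h (Pi.single i 1) (Pi.single j 1)
    rw [mv_apply, mv_apply, B_vecMul, mfrm_B] at h1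
    simpa [Pi.star_single] using h1

theorem comm_mem {G : Matrix n n R} (hG : Gᴴ = G) {C : (Matrix n n R)ˣ}
    (h : mv C ∈ ⁅(mfrm G hG).O, (mfrm G hG).O⁆) : C ∈ ⁅OM G, OM G⁆ := by
  let f : (Matrix n n R)ˣ →* ((n → R) ≃ₗ[R] (n → R)) :=
    { toFun := fun U => mv U⁻¹
      map_one' := by
        refine LinearEquiv.ext fun x => ?_
        rw [mv_apply, inv_one, Units.val_one, vecMul_one]
        rfl
      map_mul' := fun A B => by rw [_root_.mul_inv_rev, mv_mul] }
  have hf : ∀ U, f U = mv U⁻¹ := fun _ => rfl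
  have h1 : (OM G).map f = (mfrm G hG).O := by
    ext φ
    constructor
    · rintro ⟨M, hM, rfl⟩
      rw [hf, ← mem_OM_iff hG]
      exact inv_mem hM
    · intro hφ
      obtain ⟨M, rfl⟩ := mv_surj φ
      refine ⟨M⁻¹, inv_mem ((mem_OM_iff hG).2 hφ), ?_⟩
      rw [hf, inv_inv]
  have h2 : f C⁻¹ ∈ Subgroup.map f ⁅OM G, OM G⁆ := by
    rw [Subgroup.map_commutator, h1, hf, inv_inv]
    exact h
  obtain ⟨C', hC', e⟩ := h2
  rw [hf, hf] at e
  have e1 := mv_inj e
  rw [_root_.inv_inj] at e1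
  rw [e1] at hC'
  simpa using inv_mem hC'

end Pool.Agent.X263.Od
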